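import Mathlib

set_option autoImplicit false

open Set

namespace Pool.Agent.Helper514.Pattern

/-- The sign of a Boolean, as a real number. -/
noncomputable def sg (b : Bool) : ℝ := if b then 1 else -1

theorem sg_not (b : Bool) : sg (!b) = - sg b := by
  cases b <;> simp [sg]

theorem sg_mul_self (b : Bool) : sg b * sg b = 1 := by
  cases b <;> simp [sg]

theorem sg_mul_sg_mul (b : Bool) (x : ℝ) : sg b * (sg b * x) = x := by
  rw [← mul_assoc, sg_mul_self, one_mul]

section basic

variable {ι : Type*}

/-- The closed orthant of the sign vector `s`. -/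
def orth (s : ι → Bool) : Set (ι → ℝ) := {x | ∀ i, 0 ≤ sg (s i) * x i}

/-- The union of the closed orthants whose sign vector has value `b` under `f`. -/
def K (f : (ι → Bool) → Bool) (b : Bool) : Set (ι → ℝ) := {x | ∃ s, f s = b ∧ x ∈ orth s}

/-- The pattern `f` is standard: a positively homogeneous homeomorphism of the space carries its
true cone to a half-space and its false cone to the opposite half-space. -/
def T (f : (ι → Bool) → Bool) : Prop :=
  ∃ (i0 : ι) (Φ : (ι → ℝ) ≃ₜ (ι → ℝ)), (∀ (t : ℝ), 0 ≤ t → ∀ x, Φ (t • x) = t • Φ x) ∧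
    (∀ x, x ∈ K f true ↔ 0 ≤ Φ x i0) ∧ (∀ x, x ∈ K f false ↔ Φ x i0 ≤ 0)

/-- A sign vector compatible with `x`, equal to `p` wherever possible. -/
noncomputable def sgnv (x : ι → ℝ) (p : ι → Bool) : ι → Bool :=
  fun i => open Classical in if 0 ≤ sg (p i) * x i then p i else !(p i)

theorem sgnv_of_le (x : ι → ℝ) (p : ι → Bool) (i : ι) (h : 0 ≤ sg (p i) * x i) :
    sgnv x p i = p i := by
  simp [sgnv, h]

theorem mem_orth_sgnv (x : ι → ℝ) (p : ι → Bool) : x ∈ orth (sgnv x p) := by
  intro i
  by_cases h : 0 ≤ sg (p i) * x i
  · rw [sgnv_of_le x p i h]; exact h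
  · have h1 : sgnv x p i = !(p i) := by simp [sgnv, h]
    rw [h1, sg_not]
    push Not at h
    linarith

theorem eq_of_mem_orth {s : ι → Bool} {x : ι → ℝ} (hx : x ∈ orth s) {i : ι} {b : Bool}
    (h : 0 < sg b * x i) : s i = b := by
  by_contra hne
  have h1 : s i = !b := by
    cases hs : s i <;> cases hb : b <;> simp_all
  have h2 := hx i
  rw [h1, sg_not] at h2
  linarith

theorem mem_orth_update [DecidableEq ι] {s : ι → Bool} {x : ι → ℝ} (hx : x ∈ orth s) (i : ι)
    (b : Bool) (h : 0 ≤ sg b * x i) : x ∈ orth (Function.update s i b) := by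
  intro j
  by_cases hj : j = i
  · subst hj; simpa using h
  · rw [Function.update_of_ne hj]; exact hx j

theorem T_not (f : (ι → Bool) → Bool) (h : T f) : T (fun s => !(f s)) := by
  classical
  obtain ⟨i0, Φ, hh, h1, h2⟩ := h
  let N : (ι → ℝ) ≃ₜ (ι → ℝ) :=
    { toFun := fun x i => if i = i0 then - x i else x i
      invFun := fun x i => if i = i0 then - x i else x i
      left_inv := by
        intro x; funext i
        by_cases h : i = i0 <;> simp [h]
      right_inv := by
        intro x; funext i
        by_cases h : i = i0 <;> simp [h]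
      continuous_toFun := by
        apply continuous_pi; intro i
        by_cases h : i = i0
        · simp only [h, if_true]; fun_prop
        · simp only [h, if_false]; fun_prop
      continuous_invFun := by
        apply continuous_pi; intro i
        by_cases h : i = i0
        · simp only [h, if_true]; fun_prop
        · simp only [h, if_false]; fun_prop }
  have hN : ∀ x i, N x i = if i = i0 then - x i else x i := fun x i => rfl
  refine ⟨i0, Φ.trans N, ?_, ?_, ?_⟩
  · intro t ht x
    funext i
    rw [Homeomorph.trans_apply, hh t ht, hN, Pi.smul_apply, Pi.smul_apply, Homeomorph.trans_apply,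
      hN]
    by_cases h : i = i0 <;> simp [h]
  · intro x
    have h3 : x ∈ K (fun s => !(f s)) true ↔ x ∈ K f false := by
      constructor <;> rintro ⟨s, hs, hx⟩ <;> exact ⟨s, by simpa using hs, hx⟩
    rw [h3, h2, Homeomorph.trans_apply, hN]
    simp
  · intro x
    have h3 : x ∈ K (fun s => !(f s)) false ↔ x ∈ K f true := by
      constructor <;> rintro ⟨s, hs, hx⟩ <;> exact ⟨s, by simpa using hs, hx⟩
    rw [h3, h1, Homeomorph.trans_apply, hN]
    simp

theorem T_half (i0 : ι) : T (fun s : ι → Bool => s i0) := by
  refine ⟨i0, Homeomorph.refl _, fun t _ x => rfl, ?_, ?_⟩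
  · intro x
    show _ ↔ 0 ≤ x i0
    constructor
    · rintro ⟨s, hs, hx⟩
      have := hx i0
      have hs' : s i0 = true := hs
      rw [hs'] at this
      simpa [sg] using this
    · intro h
      refine ⟨sgnv x (fun _ => true), ?_, mem_orth_sgnv _ _⟩
      exact sgnv_of_le x (fun _ => true) i0 (by simpa [sg] using h)
  · intro x
    show _ ↔ x i0 ≤ 0
    constructor
    · rintro ⟨s, hs, hx⟩
      have := hx i0
      have hs' : s i0 = false := hs
      rw [hs'] at this
      simpa [sg] using this
    · intro h
      refine ⟨sgnv x (fun _ => false), ?_, mem_orth_sgnv _ _⟩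
      exact sgnv_of_le x (fun _ => false) i0 (by simpa [sg] using h)

theorem T_congr_equiv {κ : Type*} (e : ι ≃ κ) (f : (ι → Bool) → Bool) (h : T f) :
    T (fun s : κ → Bool => f (fun i => s (e i))) := by
  obtain ⟨i0, Φ, hh, h1, h2⟩ := h
  let R : (κ → ℝ) ≃ₜ (ι → ℝ) :=
    { toFun := fun x i => x (e i)
      invFun := fun x k => x (e.symm k)
      left_inv := by intro x; funext i; simp
      right_inv := by intro x; funext i; simp
      continuous_toFun := by fun_prop
      continuous_invFun := by fun_prop }
  have hR : ∀ x i, R x i = x (e i) := fun _ _ => rfl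
  have hRs : ∀ x k, R.symm x k = x (e.symm k) := fun _ _ => rfl
  have hK : ∀ b x, x ∈ K (fun s : κ → Bool => f (fun i => s (e i))) b ↔ R x ∈ K f b := by
    intro b x
    constructor
    · rintro ⟨s, hs, hx⟩
      exact ⟨fun i => s (e i), hs, fun i => hx (e i)⟩
    · rintro ⟨s, hs, hx⟩
      refine ⟨fun k => s (e.symm k), by simpa using hs, fun k => ?_⟩
      have := hx (e.symm k)
      rw [hR] at this
      simpa using this
  refine ⟨e i0, (R.trans Φ).trans R.symm, ?_, ?_, ?_⟩
  · intro t ht x
    funext k
    have h3 : R (t • x) = t • R x := rfl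
    simp only [Homeomorph.trans_apply, h3, hh t ht, hRs, Pi.smul_apply]
  · intro x
    rw [hK, h1]
    simp [Homeomorph.trans_apply, hRs]
  · intro x
    rw [hK, h2]
    simp [Homeomorph.trans_apply, hRs]

end basic

section flip

variable {ι : Type*} [Fintype ι] [DecidableEq ι]

omit [Fintype ι] [DecidableEq ι] in
theorem inf'_add_const (V : Finset ι) (hV : V.Nonempty) (f : ι → ℝ) (t : ℝ) :
    V.inf' hV (fun i => f i + t) = V.inf' hV f + t := by
  apply le_antisymm
  · rw [← sub_le_iff_le_add]
    apply Finset.le_inf'
    intro i hi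
    rw [sub_le_iff_le_add]
    exact Finset.inf'_le (f := fun i => f i + t) hi
  · apply Finset.le_inf'
    intro i hi
    have := Finset.inf'_le f hi
    linarith

omit [Fintype ι] [DecidableEq ι] in
theorem inf'_mul_const (V : Finset ι) (hV : V.Nonempty) (f : ι → ℝ) (t : ℝ) (ht : 0 ≤ t) :
    V.inf' hV (fun i => t * f i) = t * V.inf' hV f := by
  apply le_antisymm
  · obtain ⟨i, hi, h⟩ := Finset.exists_mem_eq_inf' hV f
    rw [h]
    exact Finset.inf'_le (f := fun i => t * f i) hi
  · apply Finset.le_inf'
    intro i hi
    have := Finset.inf'_le f hi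
    exact mul_le_mul_of_nonneg_left this ht

/-- The elementary flip: if the orthant `q` is regular for `f` then changing its value is
realised by a homogeneous homeomorphism. -/
theorem flip (f f' : (ι → Bool) → Bool) (q : ι → Bool) (V : Finset ι) (hV : V.Nonempty)
    (hV' : Vᶜ.Nonempty) (hq : f q = false) (hq' : f' q = true)
    (hff : ∀ s, s ≠ q → f' s = f s)
    (h1 : ∀ s, s ≠ q → (∀ i, i ∉ V → s i = q i) → f s = true)
    (h2 : ∀ s, (∀ i ∈ V, s i = q i) → f s = false) :
    ∃ Ψ : (ι → ℝ) ≃ₜ (ι → ℝ), (∀ t : ℝ, 0 ≤ t → ∀ x, Ψ (t • x) = t • Ψ x) ∧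
      ∀ b x, x ∈ K f b ↔ Ψ x ∈ K f' b := by
  classical
  let a : (ι → ℝ) → ℝ := fun x => V.inf' hV (fun i => sg (q i) * x i)
  let b : (ι → ℝ) → ℝ := fun x => Vᶜ.inf' hV' (fun i => sg (q i) * x i)
  have hac : Continuous a := by
    apply Continuous.finset_inf'_apply
    intro i _; fun_prop
  have hbc : Continuous b := by
    apply Continuous.finset_inf'_apply
    intro i _; fun_prop
  let u : ι → ℝ := fun i => if i ∈ V then sg (q i) else - sg (q i)
  have ha : ∀ x (t : ℝ), a (x + t • u) = a x + t := by
    intro x t
    show V.inf' hV (fun i => sg (q i) * (x + t • u) i) = _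
    rw [← inf'_add_const]
    apply Finset.inf'_congr hV rfl
    intro i hi
    have : u i = sg (q i) := by simp [u, hi]
    rw [Pi.add_apply, Pi.smul_apply, this, smul_eq_mul, mul_add]
    have := sg_mul_self (q i)
    linear_combination t * this
  have hb : ∀ x (t : ℝ), b (x + t • u) = b x - t := by
    intro x t
    show Vᶜ.inf' hV' (fun i => sg (q i) * (x + t • u) i) = _
    rw [sub_eq_add_neg, ← inf'_add_const]
    apply Finset.inf'_congr hV' rfl
    intro i hi
    have hi' : i ∉ V := by simpa using hi
    have : u i = - sg (q i) := by simp [u, hi']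
    rw [Pi.add_apply, Pi.smul_apply, this, smul_eq_mul, mul_add]
    have := sg_mul_self (q i)
    linear_combination -t * this
  have ha' : ∀ (t : ℝ), 0 ≤ t → ∀ x, a (t • x) = t * a x := by
    intro t ht x
    show V.inf' hV (fun i => sg (q i) * (t • x) i) = _
    rw [← inf'_mul_const _ _ _ _ ht]
    apply Finset.inf'_congr hV rfl
    intro i _
    rw [Pi.smul_apply, smul_eq_mul]; ring
  have hb' : ∀ (t : ℝ), 0 ≤ t → ∀ x, b (t • x) = t * b x := by
    intro t ht x
    show Vᶜ.inf' hV' (fun i => sg (q i) * (t • x) i) = _
    rw [← inf'_mul_const _ _ _ _ ht]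
    apply Finset.inf'_congr hV' rfl
    intro i _
    rw [Pi.smul_apply, smul_eq_mul]; ring
  let s : (ι → ℝ) → ℝ := fun x => a x + b x
  have hs : ∀ x (t : ℝ), s (x + t • u) = s x := by
    intro x t
    show a (x + t • u) + b (x + t • u) = a x + b x
    rw [ha, hb]; ring
  have hs' : ∀ x (t : ℝ), s (x - t • u) = s x := by
    intro x t
    have := hs x (-t)
    rwa [neg_smul, ← sub_eq_add_neg] at this
  have hsc : Continuous s := hac.add hbc
  let Ψ : (ι → ℝ) ≃ₜ (ι → ℝ) :=
    { toFun := fun x => x + (max (s x) 0) • u
      invFun := fun x => x - (max (s x) 0) • u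
      left_inv := by
        intro x
        show x + (max (s x) 0) • u - (max (s (x + (max (s x) 0) • u)) 0) • u = x
        rw [hs]; abel
      right_inv := by
        intro x
        show x - (max (s x) 0) • u + (max (s (x - (max (s x) 0) • u)) 0) • u = x
        rw [hs']; abel
      continuous_toFun := by
        exact continuous_id.add ((hsc.max continuous_const).smul continuous_const)
      continuous_invFun := by
        exact continuous_id.sub ((hsc.max continuous_const).smul continuous_const) }
  have hΨ : ∀ x, Ψ x = x + (max (s x) 0) • u := fun _ => rfl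
  -- basic facts
  have a_le : ∀ x, ∀ i ∈ V, a x ≤ sg (q i) * x i := fun x i hi => Finset.inf'_le _ hi
  have b_le : ∀ x, ∀ i, i ∉ V → b x ≤ sg (q i) * x i := fun x i hi =>
    Finset.inf'_le (f := fun i => sg (q i) * x i) (by simpa using hi)
  have a_ex : ∀ x, ∃ i ∈ V, sg (q i) * x i = a x := by
    intro x
    obtain ⟨i, hi, h⟩ := Finset.exists_mem_eq_inf' hV (fun i => sg (q i) * x i)
    exact ⟨i, hi, h.symm⟩
  have b_ex : ∀ x, ∃ i, i ∉ V ∧ sg (q i) * x i = b x := by
    intro x
    obtain ⟨i, hi, h⟩ := Finset.exists_mem_eq_inf' hV' (fun i => sg (q i) * x i)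
    exact ⟨i, by simpa using hi, h.symm⟩
  -- the four descriptions for s x > 0
  have c1 : ∀ x, 0 < s x → (x ∈ K f true ↔ a x ≤ 0) := by
    intro x hsx
    have hsx' : 0 < a x + b x := hsx
    constructor
    · rintro ⟨t, ht, hx⟩
      by_contra hpos
      push Not at hpos
      have h3 : f t = false := h2 t (fun i hi => eq_of_mem_orth hx (lt_of_lt_of_le hpos (a_le x i hi)))
      rw [h3] at ht; exact absurd ht (by decide)
    · intro hax
      obtain ⟨i, hi, hia⟩ := a_ex x
      refine ⟨Function.update (sgnv x q) i (!(q i)), ?_, ?_⟩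
      · apply h1
        · intro heq
          have := congrFun heq i
          simp at this
        · intro j hj
          have hji : j ≠ i := by rintro rfl; exact hj hi
          rw [Function.update_of_ne hji]
          apply sgnv_of_le
          have := b_le x j hj
          linarith
      · apply mem_orth_update (mem_orth_sgnv x q)
        rw [sg_not]; linarith
  have c2 : ∀ x, 0 < s x → (x ∈ K f false ↔ 0 ≤ a x) := by
    intro x hsx
    have hsx' : 0 < a x + b x := hsx
    constructor
    · rintro ⟨t, ht, hx⟩
      by_contra hneg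
      push Not at hneg
      have h3 : f t = true := by
        apply h1
        · rintro rfl
          obtain ⟨i, hi, hia⟩ := a_ex x
          have := hx i
          linarith
        · intro j hj
          apply eq_of_mem_orth hx
          have := b_le x j hj
          linarith
      rw [h3] at ht; exact absurd ht (by decide)
    · intro hax
      refine ⟨sgnv x q, ?_, mem_orth_sgnv x q⟩
      apply h2
      intro i hi
      apply sgnv_of_le
      have := a_le x i hi
      linarith
  have c3 : ∀ x, 0 < s x → (x ∈ K f' true ↔ 0 ≤ b x) := by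
    intro x hsx
    have hsx' : 0 < a x + b x := hsx
    constructor
    · rintro ⟨t, ht, hx⟩
      by_contra hneg
      push Not at hneg
      have h3 : f t = false := by
        apply h2
        intro i hi
        apply eq_of_mem_orth hx
        have := a_le x i hi
        linarith
      have h4 : t ≠ q := by
        rintro rfl
        obtain ⟨i, hi, hib⟩ := b_ex x
        have := hx i
        linarith
      rw [hff t h4, h3] at ht; exact absurd ht (by decide)
    · intro hbx
      refine ⟨sgnv x q, ?_, mem_orth_sgnv x q⟩
      by_cases heq : sgnv x q = q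
      · rw [heq]; exact hq'
      · rw [hff _ heq]
        apply h1 _ heq
        intro i hi
        apply sgnv_of_le
        have := b_le x i hi
        linarith
  have c4 : ∀ x, 0 < s x → (x ∈ K f' false ↔ b x ≤ 0) := by
    intro x hsx
    have hsx' : 0 < a x + b x := hsx
    constructor
    · rintro ⟨t, ht, hx⟩
      by_contra hpos
      push Not at hpos
      have h4 : t ≠ q := by
        rintro rfl
        rw [hq'] at ht; exact absurd ht (by decide)
      have h3 : f t = true := by
        apply h1 t h4
        intro j hj
        exact eq_of_mem_orth hx (lt_of_lt_of_le hpos (b_le x j hj))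
      rw [hff t h4, h3] at ht; exact absurd ht (by decide)
    · intro hbx
      obtain ⟨j, hj, hjb⟩ := b_ex x
      have hne : Function.update (sgnv x q) j (!(q j)) ≠ q := by
        intro heq
        have := congrFun heq j
        simp at this
      refine ⟨Function.update (sgnv x q) j (!(q j)), ?_, ?_⟩
      · rw [hff _ hne]
        apply h2
        intro i hi
        have hij : i ≠ j := by rintro rfl; exact hj hi
        rw [Function.update_of_ne hij]
        apply sgnv_of_le
        have := a_le x i hi
        linarith
      · apply mem_orth_update (mem_orth_sgnv x q)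
        rw [sg_not]; linarith
  -- the case s x ≤ 0
  have d0 : ∀ x, s x ≤ 0 → x ∈ orth q → a x = 0 ∧ b x = 0 := by
    intro x hsx hx
    have hsx' : a x + b x ≤ 0 := hsx
    have h3 : 0 ≤ a x := by
      apply Finset.le_inf'
      intro i _; exact hx i
    have h4 : 0 ≤ b x := by
      apply Finset.le_inf'
      intro i _; exact hx i
    constructor <;> linarith
  have d1 : ∀ x, s x ≤ 0 → (x ∈ K f true ↔ x ∈ K f' true) := by
    intro x hsx
    constructor
    · rintro ⟨t, ht, hx⟩
      refine ⟨t, ?_, hx⟩
      have : t ≠ q := by rintro rfl; rw [hq] at ht; exact absurd ht (by decide)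
      rw [hff t this]; exact ht
    · rintro ⟨t, ht, hx⟩
      by_cases htq : t = q
      · subst htq
        obtain ⟨ha0, -⟩ := d0 x hsx hx
        obtain ⟨i, hi, hia⟩ := a_ex x
        refine ⟨Function.update t i (!(t i)), ?_, ?_⟩
        · apply h1
          · intro heq
            have := congrFun heq i
            simp at this
          · intro j hj
            have hji : j ≠ i := by rintro rfl; exact hj hi
            rw [Function.update_of_ne hji]
        · apply mem_orth_update hx
          rw [sg_not]; linarith
      · exact ⟨t, by rw [← hff t htq]; exact ht, hx⟩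
  have d2 : ∀ x, s x ≤ 0 → (x ∈ K f false ↔ x ∈ K f' false) := by
    intro x hsx
    constructor
    · rintro ⟨t, ht, hx⟩
      by_cases htq : t = q
      · subst htq
        obtain ⟨-, hb0⟩ := d0 x hsx hx
        obtain ⟨j, hj, hjb⟩ := b_ex x
        have hne : Function.update t j (!(t j)) ≠ t := by
          intro heq
          have := congrFun heq j
          simp at this
        refine ⟨Function.update t j (!(t j)), ?_, ?_⟩
        · rw [hff _ hne]
          apply h2
          intro i hi
          have hij : i ≠ j := by rintro rfl; exact hj hi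
          rw [Function.update_of_ne hij]
        · apply mem_orth_update hx
          rw [sg_not]; linarith
      · exact ⟨t, by rw [hff t htq]; exact ht, hx⟩
    · rintro ⟨t, ht, hx⟩
      refine ⟨t, ?_, hx⟩
      have : t ≠ q := by rintro rfl; rw [hq'] at ht; exact absurd ht (by decide)
      rw [← hff t this]; exact ht
  refine ⟨Ψ, ?_, ?_⟩
  · intro t ht x
    rw [hΨ, hΨ]
    have h3 : s (t • x) = t * s x := by
      show a (t • x) + b (t • x) = t * (a x + b x)
      rw [ha' t ht, hb' t ht]; ring
    have h4 : max (s (t • x)) 0 = t * max (s x) 0 := by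
      rw [h3, mul_max_of_nonneg _ _ ht, mul_zero]
    rw [h4, smul_add, mul_smul]
  · intro c x
    rw [hΨ]
    rcases le_or_gt (s x) 0 with hsx | hsx
    · rw [max_eq_right hsx, zero_smul, add_zero]
      cases c
      · exact d2 x hsx
      · exact d1 x hsx
    · rw [max_eq_left hsx.le]
      have h3 : 0 < s (x + s x • u) := by rw [hs]; exact hsx
      have h4 : b (x + s x • u) = - a x := by
        rw [hb]; show b x - (a x + b x) = _; ring
      cases c
      · rw [c2 x hsx, c4 _ h3, h4]; constructor <;> intro h <;> linarith
      · rw [c1 x hsx, c3 _ h3, h4]; constructor <;> intro h <;> linarith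

omit [Fintype ι] [DecidableEq ι] in
theorem T_of_homeo (f f' : (ι → Bool) → Bool)
    (h : ∃ Ψ : (ι → ℝ) ≃ₜ (ι → ℝ), (∀ t : ℝ, 0 ≤ t → ∀ x, Ψ (t • x) = t • Ψ x) ∧
      ∀ b x, x ∈ K f b ↔ Ψ x ∈ K f' b) : T f ↔ T f' := by
  obtain ⟨Ψ, hh, hK⟩ := h
  have hh' : ∀ t : ℝ, 0 ≤ t → ∀ x, Ψ.symm (t • x) = t • Ψ.symm x := by
    intro t ht x
    rw [Homeomorph.symm_apply_eq, hh t ht, Homeomorph.apply_symm_apply]
  constructor
  · rintro ⟨i0, Φ, h0, h1, h2⟩
    refine ⟨i0, Ψ.symm.trans Φ, ?_, ?_, ?_⟩
    · intro t ht x
      rw [Homeomorph.trans_apply, hh' t ht, h0 t ht, Homeomorph.trans_apply]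
    · intro x
      have := hK true (Ψ.symm x)
      rw [Homeomorph.apply_symm_apply] at this
      rw [← this, h1, Homeomorph.trans_apply]
    · intro x
      have := hK false (Ψ.symm x)
      rw [Homeomorph.apply_symm_apply] at this
      rw [← this, h2, Homeomorph.trans_apply]
  · rintro ⟨i0, Φ, h0, h1, h2⟩
    refine ⟨i0, Ψ.trans Φ, ?_, ?_, ?_⟩
    · intro t ht x
      rw [Homeomorph.trans_apply, hh t ht, h0 t ht, Homeomorph.trans_apply]
    · intro x
      rw [hK, h1, Homeomorph.trans_apply]
    · intro x
      rw [hK, h2, Homeomorph.trans_apply]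

/-- A single orthant is a standard pattern. -/
theorem T_single (i0 : ι) (q : ι → Bool) (f : (ι → Bool) → Bool)
    (hf : ∀ s, f s = true ↔ s = q) : T f := by
  classical
  have huniv : (Finset.univ : Finset ι).Nonempty := ⟨i0, Finset.mem_univ _⟩
  let a : (ι → ℝ) → ℝ := fun x => Finset.univ.inf' huniv (fun i => sg (q i) * x i)
  let m : (ι → ℝ) → ℝ := fun y => Finset.univ.inf' huniv (fun i => if i = i0 then 0 else y i)
  have hac : Continuous a := by
    apply Continuous.finset_inf'_apply
    intro i _; fun_prop
  have hmc : Continuous m := by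
    apply Continuous.finset_inf'_apply
    intro i _
    by_cases h : i = i0
    · simp only [h, if_true]; fun_prop
    · simp only [h, if_false]; fun_prop
  have ham : ∀ x, a x = m (fun i => sg (q i) * x i - sg (q i0) * x i0) + sg (q i0) * x i0 := by
    intro x
    show _ = Finset.univ.inf' huniv _ + _
    rw [← inf'_add_const]
    apply Finset.inf'_congr huniv rfl
    intro i _
    by_cases h : i = i0
    · simp [h]
    · simp [h]
  have hm0 : ∀ y z : ι → ℝ, (∀ i, i ≠ i0 → y i = z i) → m y = m z := by
    intro y z h
    apply Finset.inf'_congr huniv rfl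
    intro i _
    by_cases hi : i = i0
    · simp [hi]
    · simp [hi, h i hi]
  let F : (ι → ℝ) → (ι → ℝ) := fun x i => if i = i0 then a x else sg (q i) * x i - sg (q i0) * x i0
  let G : (ι → ℝ) → (ι → ℝ) := fun y i =>
    sg (q i) * (if i = i0 then y i0 - m y else y i + (y i0 - m y))
  have hGF : ∀ x, G (F x) = x := by
    intro x
    have h1 : m (F x) = m (fun i => sg (q i) * x i - sg (q i0) * x i0) := by
      apply hm0
      intro i hi
      simp [F, hi]
    have h2 : F x i0 = a x := by simp [F]
    have h3 : F x i0 - m (F x) = sg (q i0) * x i0 := by rw [h1, h2, ham]; ring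
    funext i
    show sg (q i) * (if i = i0 then F x i0 - m (F x) else F x i + (F x i0 - m (F x))) = x i
    rw [h3]
    by_cases hi : i = i0
    · subst hi; rw [if_pos rfl, sg_mul_sg_mul]
    · rw [if_neg hi]
      have : F x i = sg (q i) * x i - sg (q i0) * x i0 := by simp [F, hi]
      rw [this, sub_add_cancel, sg_mul_sg_mul]
  have hFG : ∀ y, F (G y) = y := by
    intro y
    have h0 : sg (q i0) * G y i0 = y i0 - m y := by
      show sg (q i0) * (sg (q i0) * (if i0 = i0 then y i0 - m y else y i0 + (y i0 - m y))) = _
      rw [if_pos rfl, sg_mul_sg_mul]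
    have h1 : ∀ i, i ≠ i0 → sg (q i) * G y i = y i + (y i0 - m y) := by
      intro i hi
      show sg (q i) * (sg (q i) * (if i = i0 then y i0 - m y else y i + (y i0 - m y))) = _
      rw [if_neg hi, sg_mul_sg_mul]
    funext i
    by_cases hi : i = i0
    · subst hi
      have : F (G y) i = a (G y) := by simp [F]
      rw [this, ham, h0]
      have h2 : m (fun j => sg (q j) * G y j - (y i - m y)) = m y := by
        apply hm0
        intro j hj
        show sg (q j) * G y j - (y i - m y) = y j
        rw [h1 j hj]; ring
      rw [h2]; ring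
    · have : F (G y) i = sg (q i) * G y i - sg (q i0) * G y i0 := by simp [F, hi]
      rw [this, h0, h1 i hi]; ring
  let Φ : (ι → ℝ) ≃ₜ (ι → ℝ) :=
    { toFun := F
      invFun := G
      left_inv := hGF
      right_inv := hFG
      continuous_toFun := by
        apply continuous_pi; intro i
        by_cases h : i = i0
        · simp only [F, h, if_true]; exact hac
        · simp only [F, h, if_false]; fun_prop
      continuous_invFun := by
        apply continuous_pi; intro i
        by_cases h : i = i0
        · simp only [G, h, if_true]; fun_prop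
        · simp only [G, h, if_false]; fun_prop }
  have hΦ0 : ∀ x, Φ x i0 = a x := by
    intro x; show F x i0 = a x; simp [F]
  refine ⟨i0, Φ, ?_, ?_, ?_⟩
  · intro t ht x
    funext i
    show F (t • x) i = t * F x i
    by_cases hi : i = i0
    · simp only [F, hi, if_true]
      show Finset.univ.inf' huniv (fun i => sg (q i) * (t • x) i) = _
      rw [← inf'_mul_const _ _ _ _ ht]
      apply Finset.inf'_congr huniv rfl
      intro i _
      rw [Pi.smul_apply, smul_eq_mul]; ring
    · simp only [F, hi, if_false, Pi.smul_apply, smul_eq_mul]; ring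
  · intro x
    rw [hΦ0]
    constructor
    · rintro ⟨s, hs, hx⟩
      rw [hf] at hs; subst hs
      apply Finset.le_inf'
      intro i _; exact hx i
    · intro h
      refine ⟨q, (hf q).2 rfl, fun i => ?_⟩
      exact h.trans (Finset.inf'_le _ (Finset.mem_univ i))
  · intro x
    rw [hΦ0]
    constructor
    · rintro ⟨s, hs, hx⟩
      have hne : s ≠ q := by
        intro h
        rw [(hf s).2 h] at hs; exact absurd hs (by decide)
      obtain ⟨i, hi⟩ := Function.ne_iff.1 hne
      have h1 : s i = !(q i) := by
        cases h1 : s i <;> cases h2 : q i <;> simp_all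
      have h2 := hx i
      rw [h1, sg_not] at h2
      have h3 : a x ≤ sg (q i) * x i := Finset.inf'_le _ (Finset.mem_univ i)
      linarith
    · intro h
      obtain ⟨i, _, hi⟩ := Finset.exists_mem_eq_inf' huniv (fun i => sg (q i) * x i)
      have hi' : a x = sg (q i) * x i := hi
      refine ⟨Function.update (sgnv x q) i (!(q i)), ?_, ?_⟩
      · rw [← Bool.not_eq_true, hf]
        intro heq
        have := congrFun heq i
        simp at this
      · apply mem_orth_update (mem_orth_sgnv x q)
        rw [sg_not]; linarith

end flip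

section compose

variable {κ lam : Type*}

/-- Substituting standard patterns into a standard pattern gives a standard pattern. -/
theorem T_compose (g : (κ → Bool) → Bool) (f : κ → (lam → Bool) → Bool) (hg : T g)
    (hf : ∀ j, T (f j)) : T (fun s : κ × lam → Bool => g (fun j => f j (fun l => s (j, l)))) := by
  classical
  obtain ⟨j0, Φg, hgh, hg1, hg2⟩ := hg
  choose i Φ hh h1 h2 using hf
  have hΦgc : Continuous Φg := Φg.continuous
  have hΦgc' : Continuous Φg.symm := Φg.symm.continuous
  have hΦc : ∀ j, Continuous (Φ j) := fun j => (Φ j).continuous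
  have hΦc' : ∀ j, Continuous (Φ j).symm := fun j => (Φ j).symm.continuous
  let F : (κ × lam → ℝ) → (κ × lam → ℝ) := fun x p =>
    if p.2 = i p.1 then Φg (fun j => Φ j (fun l => x (j, l)) (i j)) p.1
    else Φ p.1 (fun l => x (p.1, l)) p.2
  let G : (κ × lam → ℝ) → (κ × lam → ℝ) := fun y p =>
    (Φ p.1).symm (fun l => if l = i p.1 then Φg.symm (fun j => y (j, i j)) p.1 else y (p.1, l)) p.2
  have hGF : ∀ x, G (F x) = x := by
    intro x
    funext p
    obtain ⟨j, l⟩ := p
    show (Φ j).symm (fun l => if l = i j then Φg.symm (fun j => F x (j, i j)) j else F x (j, l)) l = x (j, l)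
    have h3 : (fun j => F x (j, i j)) = Φg (fun j => Φ j (fun l => x (j, l)) (i j)) := by
      funext j'
      show (if i j' = i j' then _ else _) = _
      rw [if_pos rfl]
    have h4 : (fun l => if l = i j then Φg.symm (fun j => F x (j, i j)) j else F x (j, l)) =
        Φ j (fun l => x (j, l)) := by
      funext l'
      by_cases hl : l' = i j
      · subst hl
        rw [if_pos rfl, h3, Homeomorph.symm_apply_apply]
      · rw [if_neg hl]
        show (if l' = i j then _ else _) = _
        rw [if_neg hl]
    rw [h4, Homeomorph.symm_apply_apply]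
  have hFG : ∀ y, F (G y) = y := by
    intro y
    have h5 : ∀ j, (fun l => G y (j, l)) =
        (Φ j).symm (fun l => if l = i j then Φg.symm (fun j => y (j, i j)) j else y (j, l)) := by
      intro j; funext l; rfl
    funext p
    obtain ⟨j, l⟩ := p
    show (if l = i j then Φg (fun j => Φ j (fun l => G y (j, l)) (i j)) j
      else Φ j (fun l => G y (j, l)) l) = y (j, l)
    by_cases hl : l = i j
    · subst hl
      rw [if_pos rfl]
      have h6 : (fun j => Φ j (fun l => G y (j, l)) (i j)) = Φg.symm (fun j => y (j, i j)) := by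
        funext j'
        rw [h5, Homeomorph.apply_symm_apply, if_pos rfl]
      rw [h6, Homeomorph.apply_symm_apply]
    · rw [if_neg hl, h5, Homeomorph.apply_symm_apply, if_neg hl]
  let Θ : (κ × lam → ℝ) ≃ₜ (κ × lam → ℝ) :=
    { toFun := F
      invFun := G
      left_inv := hGF
      right_inv := hFG
      continuous_toFun := by
        apply continuous_pi; rintro ⟨j, l⟩
        have hblock : ∀ j, Continuous (fun x : κ × lam → ℝ => Φ j (fun l => x (j, l))) := by
          intro j
          exact (hΦc j).comp (by fun_prop)
        by_cases h : l = i j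
        · simp only [F, h, if_true]
          have h3 : Continuous (fun x : κ × lam → ℝ => Φg (fun j => Φ j (fun l => x (j, l)) (i j))) := by
            apply hΦgc.comp
            apply continuous_pi; intro j'
            exact (continuous_apply (i j')).comp (hblock j')
          exact (continuous_apply j).comp h3
        · simp only [F, h, if_false]
          exact (continuous_apply l).comp (hblock j)
      continuous_invFun := by
        apply continuous_pi; rintro ⟨j, l⟩
        have h3 : Continuous (fun y : κ × lam → ℝ => Φg.symm (fun j => y (j, i j))) :=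
          hΦgc'.comp (by fun_prop)
        have h4 : Continuous (fun y : κ × lam → ℝ => (fun l => if l = i j then
            Φg.symm (fun j => y (j, i j)) j else y (j, l) : lam → ℝ)) := by
          apply continuous_pi; intro l'
          by_cases h : l' = i j
          · simp only [h, if_true]; exact (continuous_apply j).comp h3
          · simp only [h, if_false]; fun_prop
        exact (continuous_apply l).comp ((hΦc' j).comp h4) }
  have hK : ∀ b x, x ∈ K (fun s : κ × lam → Bool => g (fun j => f j (fun l => s (j, l)))) b ↔
      (fun j => Φ j (fun l => x (j, l)) (i j)) ∈ K g b := by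
    intro b x
    constructor
    · rintro ⟨s, hs, hx⟩
      refine ⟨fun j => f j (fun l => s (j, l)), hs, fun j => ?_⟩
      have hm : (fun l => x (j, l)) ∈ orth (fun l => s (j, l)) := fun l => hx (j, l)
      show 0 ≤ sg (f j (fun l => s (j, l))) * Φ j (fun l => x (j, l)) (i j)
      cases hb : f j (fun l => s (j, l))
      · have := (h2 j (fun l => x (j, l))).1 ⟨_, hb, hm⟩
        simp only [sg]; simp; linarith
      · have := (h1 j (fun l => x (j, l))).1 ⟨_, hb, hm⟩
        simp only [sg]; simp; linarith
    · rintro ⟨y, hy, hx⟩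
      have hc : ∀ j, ∃ s, f j s = y j ∧ (fun l => x (j, l)) ∈ orth s := by
        intro j
        have h3 := hx j
        have h4 : (fun l => x (j, l)) ∈ K (f j) (y j) := by
          cases hb : y j
          · rw [h2]; rw [hb] at h3; simp only [sg] at h3; simp at h3; linarith
          · rw [h1]; rw [hb] at h3; simp only [sg] at h3; simp at h3; linarith
        exact h4
      choose s hs hxs using hc
      refine ⟨fun p => s p.1 p.2, ?_, fun p => hxs p.1 p.2⟩
      show g (fun j => f j (fun l => s j l)) = b
      rw [← hy]; congr 1; funext j; exact hs j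
  have hΘ0 : ∀ x, Θ x (j0, i j0) = Φg (fun j => Φ j (fun l => x (j, l)) (i j)) j0 := by
    intro x
    show (if i j0 = i j0 then _ else _) = _
    rw [if_pos rfl]
  refine ⟨(j0, i j0), Θ, ?_, ?_, ?_⟩
  · intro t ht x
    have hb : ∀ j, Φ j (fun l => (t • x) (j, l)) = t • Φ j (fun l => x (j, l)) := by
      intro j
      rw [← hh j t ht]; rfl
    funext p
    obtain ⟨j, l⟩ := p
    show (if l = i j then Φg (fun j => Φ j (fun l => (t • x) (j, l)) (i j)) j
      else Φ j (fun l => (t • x) (j, l)) l) = t * (if l = i j then Φg (fun j => Φ j (fun l => x (j, l)) (i j)) j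
      else Φ j (fun l => x (j, l)) l)
    by_cases h : l = i j
    · rw [if_pos h, if_pos h]
      have h3 : (fun j => Φ j (fun l => (t • x) (j, l)) (i j)) =
          t • (fun j => Φ j (fun l => x (j, l)) (i j)) := by
        funext j'; rw [hb]; rfl
      rw [h3, hgh t ht]; rfl
    · rw [if_neg h, if_neg h, hb]; rfl
  · intro x
    rw [hK, hg1, hΘ0]
  · intro x
    rw [hK, hg2, hΘ0]

end compose

end Pool.Agent.Helper514.Pattern
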