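import Mathlib

set_option autoImplicit false

namespace Pool.Agent.Helper514.Rigid

section basic

variable {ι : Type*} [DecidableEq ι]

/-- Change the signs in `B`. -/
def flp (q : ι → Bool) (B : Finset ι) : ι → Bool := fun i => if i ∈ B then !(q i) else q i

/-- `A` is a minimal set of coordinates whose change affects the value at `q`. -/
def Mini (f : (ι → Bool) → Bool) (q : ι → Bool) (A : Finset ι) : Prop :=
  ∀ B, B ⊆ A → (f (flp q B) ≠ f q ↔ B = A)

/-- The orthant `q` is blocked for `f`: it has a minimal affecting set with at least two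
elements. -/
def Blocked (f : (ι → Bool) → Bool) (q : ι → Bool) : Prop :=
  ∃ A : Finset ι, 2 ≤ A.card ∧ Mini f q A

theorem flp_empty (q : ι → Bool) : flp q ∅ = q := by
  funext i; simp [flp]

theorem Mini.nonempty {f : (ι → Bool) → Bool} {q : ι → Bool} {A : Finset ι} (h : Mini f q A) :
    A.Nonempty := by
  rw [Finset.nonempty_iff_ne_empty]
  rintro rfl
  have := (h ∅ (Finset.Subset.refl _)).2 rfl
  rw [flp_empty] at this
  exact this rfl

theorem exists_mini (f : (ι → Bool) → Bool) (q : ι → Bool) (D : Finset ι)
    (hD : f (flp q D) ≠ f q) : ∃ A, A ⊆ D ∧ Mini f q A := by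
  classical
  let S : Finset (Finset ι) := D.powerset.filter (fun A => f (flp q A) ≠ f q)
  have hS : S.Nonempty := ⟨D, by simp [S, hD]⟩
  obtain ⟨A, hA, hmin⟩ := Finset.exists_min_image S Finset.card hS
  have hA' : A ⊆ D ∧ f (flp q A) ≠ f q := by simpa [S] using hA
  refine ⟨A, hA'.1, fun B hB => ⟨fun hne => ?_, fun h => h ▸ hA'.2⟩⟩
  have hBS : B ∈ S := by
    simp only [S, Finset.mem_filter, Finset.mem_powerset]
    exact ⟨hB.trans hA'.1, hne⟩
  exact Finset.eq_of_subset_of_card_le hB (hmin B hBS)

theorem blocked_of (f : (ι → Bool) → Bool) (q : ι → Bool) (D : Finset ι)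
    (hD : f (flp q D) ≠ f q) (h1 : ∀ i ∈ D, f (flp q {i}) = f q) : Blocked f q := by
  obtain ⟨A, hAD, hA⟩ := exists_mini f q D hD
  refine ⟨A, ?_, hA⟩
  by_contra hlt
  have h2 : 0 < A.card := Finset.card_pos.2 hA.nonempty
  have h3 : A.card = 1 := by omega
  obtain ⟨i, rfl⟩ := Finset.card_eq_one.1 h3
  have h4 := (hA {i} (Finset.Subset.refl _)).2 rfl
  exact h4 (h1 i (hAD (Finset.mem_singleton_self i)))

theorem flp_diff [Fintype ι] (x z : ι → Bool) :
    flp x (Finset.univ.filter (fun i => x i ≠ z i)) = z := by
  funext i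
  by_cases h : x i = z i
  · simp [flp, h]
  · have : z i = !(x i) := by
      cases h1 : x i <;> cases h2 : z i <;> simp_all
    simp [flp, this]

theorem blocked_congr_equiv {κ : Type*} [DecidableEq κ] (e : ι ≃ κ) (f : (ι → Bool) → Bool)
    (q : κ → Bool) (h : Blocked f (fun i => q (e i))) :
    Blocked (fun s : κ → Bool => f (fun i => s (e i))) q := by
  obtain ⟨A, hA2, hA⟩ := h
  refine ⟨A.map e.toEmbedding, by simpa using hA2, fun B hB => ?_⟩
  have h1 : (fun i => flp q B (e i)) = flp (fun i => q (e i)) (B.map e.symm.toEmbedding) := by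
    funext i
    simp [flp]
  have h2 : B.map e.symm.toEmbedding ⊆ A := by
    intro i hi
    simp only [Finset.mem_map_equiv, Equiv.symm_symm] at hi
    have := hB hi
    simpa using this
  show f (fun i => flp q B (e i)) ≠ f (fun i => q (e i)) ↔ _
  rw [h1, hA _ h2]
  constructor
  · rintro rfl
    ext k; simp
  · rintro rfl
    ext i; simp

end basic

section compose

variable {κ lam : Type*} [DecidableEq κ] [DecidableEq lam] [Fintype κ] [Fintype lam]

theorem compose_blocked (g : (κ → Bool) → Bool) (f : κ → (lam → Bool) → Bool)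
    (q : κ × lam → Bool) (J : Finset κ)
    (hJ : Mini g (fun j => f j (fun l => q (j, l))) J) (A : κ → Finset lam)
    (hA : ∀ j ∈ J, Mini (f j) (fun l => q (j, l)) (A j))
    (hcard : 2 ≤ J.card ∨ ∃ j ∈ J, 2 ≤ (A j).card) :
    Blocked (fun s : κ × lam → Bool => g (fun j => f j (fun l => s (j, l)))) q := by
  classical
  let AA : Finset (κ × lam) := Finset.univ.filter (fun p => p.1 ∈ J ∧ p.2 ∈ A p.1)
  have hAA : ∀ j l, (j, l) ∈ AA ↔ j ∈ J ∧ l ∈ A j := by
    intro j l; simp [AA]
  refine ⟨AA, ?_, ?_⟩
  · rcases hcard with h | ⟨j, hj, h⟩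
    · have hne : ∀ j ∈ J, ∃ l, l ∈ A j := fun j hj => (hA j hj).nonempty
      obtain ⟨j1, hj1, j2, hj2, hjj⟩ := Finset.one_lt_card.1 h
      obtain ⟨l1, hl1⟩ := hne j1 hj1
      obtain ⟨l2, hl2⟩ := hne j2 hj2
      have : 1 < AA.card := by
        rw [Finset.one_lt_card]
        refine ⟨(j1, l1), (hAA _ _).2 ⟨hj1, hl1⟩, (j2, l2), (hAA _ _).2 ⟨hj2, hl2⟩, ?_⟩
        intro heq
        exact hjj (congrArg Prod.fst heq)
      exact this
    · obtain ⟨l1, hl1, l2, hl2, hll⟩ := Finset.one_lt_card.1 h
      have : 1 < AA.card := by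
        rw [Finset.one_lt_card]
        refine ⟨(j, l1), (hAA _ _).2 ⟨hj, hl1⟩, (j, l2), (hAA _ _).2 ⟨hj, hl2⟩, ?_⟩
        intro heq
        exact hll (congrArg Prod.snd heq)
      exact this
  · intro B hB
    let sl : κ → Finset lam := fun j => Finset.univ.filter (fun l => (j, l) ∈ B)
    have hsl : ∀ j l, l ∈ sl j ↔ (j, l) ∈ B := by
      intro j l; simp [sl]
    have hslA : ∀ j ∈ J, sl j ⊆ A j := by
      intro j _ l hl
      exact ((hAA j l).1 (hB ((hsl j l).1 hl))).2
    have hslJ : ∀ j, j ∉ J → sl j = ∅ := by
      intro j hj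
      rw [Finset.eq_empty_iff_forall_notMem]
      intro l hl
      exact hj ((hAA j l).1 (hB ((hsl j l).1 hl))).1
    have hblock : ∀ j, (fun l => flp q B (j, l)) = flp (fun l => q (j, l)) (sl j) := by
      intro j
      funext l
      simp [flp, hsl]
    let JB : Finset κ := J.filter (fun j => sl j = A j)
    have hJB : JB ⊆ J := Finset.filter_subset _ _
    have hvec : (fun j => f j (fun l => flp q B (j, l))) =
        flp (fun j => f j (fun l => q (j, l))) JB := by
      funext j
      rw [hblock]
      by_cases hj : j ∈ J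
      · by_cases hs : sl j = A j
        · have h1 : j ∈ JB := by simp [JB, hj, hs]
          have h2 := (hA j hj (sl j) (hslA j hj)).2 hs
          have h3 : f j (flp (fun l => q (j, l)) (sl j)) = !(f j (fun l => q (j, l))) := by
            cases h4 : f j (flp (fun l => q (j, l)) (sl j)) <;>
              cases h5 : f j (fun l => q (j, l)) <;> simp_all
          simp [flp, h1]
          simpa [flp] using h3
        · have h1 : j ∉ JB := by simp [JB, hs]
          have h2 : f j (flp (fun l => q (j, l)) (sl j)) = f j (fun l => q (j, l)) := by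
            by_contra hne
            exact hs ((hA j hj (sl j) (hslA j hj)).1 hne)
          simp [flp, h1]
          simpa [flp] using h2
      · have h1 : j ∉ JB := fun h => hj (hJB h)
        rw [hslJ j hj, flp_empty]
        simp [flp, h1]
    show g (fun j => f j (fun l => flp q B (j, l))) ≠ g (fun j => f j (fun l => q (j, l))) ↔ B = AA
    rw [hvec, hJ JB hJB]
    constructor
    · intro h
      apply Finset.Subset.antisymm hB
      rintro ⟨j, l⟩ hjl
      obtain ⟨hj, hl⟩ := (hAA j l).1 hjl
      have h2 : j ∈ JB := h ▸ hj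
      have h3 : sl j = A j := by simpa [JB, hj] using h2
      rw [← h3, hsl] at hl
      exact hl
    · rintro rfl
      apply Finset.Subset.antisymm hJB
      intro j hj
      have : sl j = A j := by
        ext l; rw [hsl, hAA]; simp [hj]
      simp [JB, hj, this]

end compose

section rigid

variable {lam : Type*} [DecidableEq lam] [Fintype lam]

/-- The composed pattern on pairs of indices. -/
def comp (f : (lam → Bool) → Bool) (z : lam → Bool) : (lam × lam → Bool) → Bool :=
  fun s => f (fun j => xor (f (fun l => s (j, l))) (z j))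

/-- If every orthant with value true is blocked, then every orthant of the composed pattern is
blocked. -/
theorem comp_rigid (f : (lam → Bool) → Bool) (hf : ∀ q, f q = true → Blocked f q)
    (z : lam → Bool) (hz : f z = true) (w : lam → Bool) (hw : f w = false)
    (q : lam × lam → Bool) : Blocked (comp f z) q := by
  classical
  let F : lam → (lam → Bool) → Bool := fun j s => xor (f s) (z j)
  have hmini : ∀ j s A, Mini f s A → Mini (F j) s A := by
    intro j s A h B hB
    rw [← h B hB]
    show xor (f (flp s B)) (z j) ≠ xor (f s) (z j) ↔ _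
    cases f (flp s B) <;> cases f s <;> cases z j <;> simp
  have hex : ∀ s, ∃ A, Mini f s A := by
    intro s
    cases hs : f s
    · obtain ⟨A, -, hA⟩ := exists_mini f s (Finset.univ.filter (fun i => s i ≠ z i))
        (by rw [flp_diff, hz, hs]; decide)
      exact ⟨A, hA⟩
    · obtain ⟨A, -, hA⟩ := exists_mini f s (Finset.univ.filter (fun i => s i ≠ w i))
        (by rw [flp_diff, hw, hs]; decide)
      exact ⟨A, hA⟩
  set x : lam → Bool := fun j => F j (fun l => q (j, l)) with hx
  show Blocked (fun s : lam × lam → Bool => f (fun j => F j (fun l => s (j, l)))) q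
  by_cases hb : Blocked f x
  · obtain ⟨J, hJ2, hJ⟩ := hb
    choose A hA using hex
    exact compose_blocked f F q J hJ (fun j => A (fun l => q (j, l)))
      (fun j _ => hmini j _ _ (hA _)) (Or.inl hJ2)
  · have hfx : f x = false := by
      by_contra h
      exact hb (hf x (by simpa using h))
    have : ∃ j ∈ Finset.univ.filter (fun i => x i ≠ z i), f (flp x {j}) ≠ f x := by
      by_contra hno
      push Not at hno
      exact hb (blocked_of f x _ (by rw [flp_diff, hz, hfx]; decide) hno)
    obtain ⟨j, hj, hjs⟩ := this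
    have hj' : x j ≠ z j := by simpa using hj
    have hfq : f (fun l => q (j, l)) = true := by
      by_contra h
      have h2 : f (fun l => q (j, l)) = false := by simpa using h
      apply hj'
      show xor (f (fun l => q (j, l))) (z j) = z j
      rw [h2]; simp
    obtain ⟨A, hA2, hA⟩ := hf _ hfq
    refine compose_blocked f F q {j} ?_ (fun _ => A) ?_ (Or.inr ⟨j, by simp, hA2⟩)
    · intro B hB
      constructor
      · intro hne
        rcases Finset.subset_singleton_iff.1 hB with h | h
        · subst h; rw [flp_empty] at hne; exact absurd rfl hne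
        · exact h
      · rintro rfl; exact hjs
    · intro j' hj'
      have : j' = j := by simpa using hj'
      subst this
      exact hmini _ _ _ hA

end rigid

end Pool.Agent.Helper514.Rigid
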