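import Mathlib
import Pool.Agent.Helper514.Pattern
import Pool.Agent.Helper514.Rigid

set_option autoImplicit false

open Pool.Agent.Helper514.Pattern Pool.Agent.Helper514.Rigid

namespace Pool.Agent.Helper514.Data

/-- The code of a sign vector. -/
def enc (s : Fin 12 → Bool) : ℕ := Nat.ofBits s

/-- The sign vector of a code. -/
def dec (n : ℕ) : Fin 12 → Bool := fun i => n.testBit i

/-- The pattern given by a list of codes. -/
def fl (L : List ℕ) : (Fin 12 → Bool) → Bool := fun s => L.contains (enc s)

/-- The bit mask of a list of codes. -/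
def maskOf : List ℕ → ℕ
  | [] => 0
  | a :: L => maskOf L ||| 2 ^ a

/-- Test `p` on all numbers `B + C` where `C` uses only bits of `V` below `k`. -/
def allSub (V : ℕ) (p : ℕ → Bool) : ℕ → ℕ → Bool
  | 0, B => p B
  | k + 1, B => allSub V p k B && (if V.testBit k then allSub V p k (B + 2 ^ k) else true)

/-- The check for one elementary flip. -/
def stepOK (q V : ℕ) (L : List ℕ) : Bool :=
  decide (q < 4096) && (List.range 12).any (fun i => V.testBit i) &&
    (List.range 12).any (fun i => !V.testBit i) && decide (V < 4096) &&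
    allSub V (fun B => B == 0 || (maskOf L).testBit (q ^^^ B)) 12 0 &&
    L.all (fun s => ((s ^^^ q) &&& V) != 0)

/-- The check of a whole sequence of elementary flips. -/
def chk : List (ℕ × ℕ) → Bool
  | [] => false
  | (q, V) :: l => match l with
    | [] => decide (q < 4096)
    | _ :: _ => stepOK q V (l.map Prod.fst) && chk l

/-- The check that each listed code is blocked. -/
def blkOK (b : List (ℕ × ℕ)) (M : ℕ) : Bool :=
  b.all (fun p => decide (p.2 < 4096) && !(M.testBit (p.1 ^^^ p.2)) &&
    (List.range 12).all (fun i => !(p.2.testBit i) || M.testBit (p.1 ^^^ (2 ^ i))))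

theorem testBit_maskOf (L : List ℕ) (n : ℕ) : (maskOf L).testBit n = L.contains n := by
  induction L with
  | nil => simp [maskOf]
  | cons a L ih =>
    rw [maskOf, Nat.testBit_or, ih, List.contains_cons, Nat.testBit_two_pow, Bool.or_comm]
    congr 1
    by_cases h : a = n
    · subst h; simp
    · have : n ≠ a := fun h' => h h'.symm
      simp [h, this]

theorem enc_lt (s : Fin 12 → Bool) : enc s < 4096 := Nat.ofBits_lt_two_pow s

theorem testBit_enc (s : Fin 12 → Bool) (i : Fin 12) : (enc s).testBit i = s i := by
  rw [enc, Nat.testBit_ofBits_lt s i i.2]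

theorem testBit_of_lt {n : ℕ} (hn : n < 4096) {i : ℕ} (hi : 12 ≤ i) : n.testBit i = false := by
  apply Nat.testBit_lt_two_pow
  calc n < 2 ^ 12 := hn
    _ ≤ 2 ^ i := Nat.pow_le_pow_right (by norm_num) hi

theorem eq_of_bits {m n : ℕ} (hm : m < 4096) (hn : n < 4096)
    (h : ∀ i : Fin 12, m.testBit i = n.testBit i) : m = n := by
  apply Nat.eq_of_testBit_eq
  intro i
  by_cases hi : i < 12
  · exact h ⟨i, hi⟩
  · rw [testBit_of_lt hm (by omega), testBit_of_lt hn (by omega)]

theorem enc_dec {n : ℕ} (hn : n < 4096) : enc (dec n) = n := by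
  apply eq_of_bits (enc_lt _) hn
  intro i
  rw [testBit_enc]; rfl

theorem dec_enc (s : Fin 12 → Bool) : dec (enc s) = s := by
  funext i
  exact testBit_enc s i

theorem enc_inj {s t : Fin 12 → Bool} (h : enc s = enc t) : s = t := by
  rw [← dec_enc s, h, dec_enc]

theorem allSub_spec (V : ℕ) (p : ℕ → Bool) (k : ℕ) : ∀ B, allSub V p k B = true →
    ∀ C, C < 2 ^ k → (∀ i, C.testBit i = true → V.testBit i = true) → p (B + C) = true := by
  induction k with
  | zero =>
    intro B h C hC _
    have : C = 0 := by simpa using hC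
    subst this
    simpa [allSub] using h
  | succ k ih =>
    intro B h C hC hCV
    rw [allSub, Bool.and_eq_true] at h
    by_cases hCk : C < 2 ^ k
    · exact ih B h.1 C hCk hCV
    · obtain ⟨D, rfl⟩ : ∃ D, C = 2 ^ k + D := ⟨C - 2 ^ k, by omega⟩
      have hD : D < 2 ^ k := by rw [pow_succ] at hC; omega
      have hk : (2 ^ k + D).testBit k = true := by
        rw [Nat.testBit_two_pow_add_eq, Nat.testBit_lt_two_pow hD]; rfl
      have hVk : V.testBit k = true := hCV k hk
      have h2 := h.2
      rw [if_pos hVk] at h2
      rw [← add_assoc]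
      apply ih (B + 2 ^ k) h2 D hD
      intro i hi
      by_cases hik : i < k
      · apply hCV
        rw [Nat.testBit_two_pow_add_gt hik]; exact hi
      · exfalso
        have : D.testBit i = false := by
          apply Nat.testBit_lt_two_pow
          exact lt_of_lt_of_le hD (Nat.pow_le_pow_right (by norm_num) (by omega))
        rw [this] at hi; exact absurd hi (by decide)

theorem fl_dec {L : List ℕ} {n : ℕ} (hn : n < 4096) : fl L (dec n) = L.contains n := by
  rw [fl, enc_dec hn]

theorem T_step (q V : ℕ) (L : List ℕ) (h : stepOK q V L = true) : T (fl L) ↔ T (fl (q :: L)) := by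
  simp only [stepOK, Bool.and_eq_true, decide_eq_true_eq] at h
  obtain ⟨⟨⟨⟨⟨hq, hV1⟩, hV2⟩, hV3⟩, hsub⟩, hall⟩ := h
  rw [List.any_eq_true] at hV1 hV2
  obtain ⟨i1, hi1, hi1'⟩ := hV1
  obtain ⟨i2, hi2, hi2'⟩ := hV2
  rw [List.mem_range] at hi1 hi2
  rw [List.all_eq_true] at hall
  have hnotmem : ¬ (q ∈ L) := by
    intro hmem
    have := hall q hmem
    simp at this
  let Vs : Finset (Fin 12) := Finset.univ.filter (fun i => V.testBit i = true)
  have hVs : ∀ i, i ∈ Vs ↔ V.testBit i = true := by intro i; simp [Vs]
  apply T_of_homeo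
  apply flip (fl L) (fl (q :: L)) (dec q) Vs
  · exact ⟨⟨i1, hi1⟩, (hVs _).2 hi1'⟩
  · refine ⟨⟨i2, hi2⟩, ?_⟩
    rw [Finset.mem_compl, hVs]
    simpa using hi2'
  · rw [fl_dec hq]
    simpa using hnotmem
  · rw [fl_dec hq]
    simp
  · intro s hs
    have hne : enc s ≠ q := by
      intro h
      apply hs
      rw [← h, dec_enc]
    rw [fl, fl, List.contains_cons]
    simp [hne]
  · intro s hs hagree
    have hne : enc s ≠ q := by
      intro h
      apply hs
      rw [← h, dec_enc]
    have h1 := allSub_spec V _ 12 0 hsub (q ^^^ enc s) (by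
        apply Nat.xor_lt_two_pow hq (enc_lt s)) (by
        intro i hi
        by_cases hi12 : i < 12
        · by_contra hVi
          have h2 := hagree ⟨i, hi12⟩ (by rw [hVs]; exact hVi)
          have h3 : (enc s).testBit i = q.testBit i := by
            rw [← testBit_enc s ⟨i, hi12⟩] at h2
            exact h2
          rw [Nat.testBit_xor, h3] at hi
          simp at hi
        · rw [Nat.testBit_xor, testBit_of_lt hq (by omega), testBit_of_lt (enc_lt s) (by omega)] at hi
          simp at hi)
    rw [zero_add] at h1
    have h2 : q ^^^ (q ^^^ enc s) = enc s := by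
      rw [← Nat.xor_assoc, Nat.xor_self, Nat.zero_xor]
    rw [h2, testBit_maskOf, Bool.or_eq_true] at h1
    rcases h1 with h1 | h1
    · exfalso
      rw [beq_iff_eq] at h1
      apply hne
      rw [h1] at h2
      rw [← h2, Nat.xor_zero]
    · exact h1
  · intro s hagree
    rw [fl, ← Bool.not_eq_true]
    intro hmem
    have hmem' : enc s ∈ L := by simpa using hmem
    have h1 := hall (enc s) hmem'
    have h2 : (enc s ^^^ q) &&& V = 0 := by
      apply Nat.eq_of_testBit_eq
      intro i
      rw [Nat.testBit_and, Nat.testBit_xor, Nat.zero_testBit]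
      by_cases hi12 : i < 12
      · by_cases hVi : V.testBit i = true
        · have h3 := hagree ⟨i, hi12⟩ ((hVs _).2 hVi)
          rw [← testBit_enc s ⟨i, hi12⟩] at h3
          have h4 : (enc s).testBit i = q.testBit i := h3
          rw [h4]; simp
        · simp [hVi]
      · rw [testBit_of_lt hV3 (by omega), Bool.and_false]
    rw [h2] at h1
    simp at h1

theorem T_chk (l : List (ℕ × ℕ)) (h : chk l = true) : T (fl (l.map Prod.fst)) := by
  induction l with
  | nil => simp [chk] at h
  | cons a l ih =>
    obtain ⟨q, V⟩ := a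
    cases l with
    | nil =>
      have hq : q < 4096 := by simpa [chk] using h
      apply T_single 0 (dec q)
      intro s
      show (List.contains [q] (enc s)) = true ↔ _
      constructor
      · intro h1
        have h2 : enc s = q := by simpa using h1
        rw [← h2, dec_enc]
      · rintro rfl
        rw [enc_dec hq]; simp
    | cons b l' =>
      rw [chk, Bool.and_eq_true] at h
      have h1 := ih h.2
      have h2 := (T_step q V _ h.1).1 h1
      simpa using h2

theorem fl_congr (L L' : List ℕ) (h : maskOf L = maskOf L') : fl L = fl L' := by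
  funext s
  rw [fl, fl, ← testBit_maskOf, ← testBit_maskOf, h]

theorem blocked_blk (b : List (ℕ × ℕ)) (h : blkOK b (maskOf (b.map Prod.fst)) = true)
    (q : Fin 12 → Bool) (hq : fl (b.map Prod.fst) q = true) : Blocked (fl (b.map Prod.fst)) q := by
  rw [blkOK, List.all_eq_true] at h
  have hmem : enc q ∈ b.map Prod.fst := by
    have := hq
    rw [fl] at this
    simpa using this
  obtain ⟨⟨t, D⟩, hp, ht⟩ := List.mem_map.1 hmem
  have ht' : t = enc q := ht
  subst ht'
  have h1 := h _ hp
  simp only [Bool.and_eq_true, decide_eq_true_eq, List.all_eq_true, List.mem_range,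
    Bool.or_eq_true, testBit_maskOf] at h1
  obtain ⟨⟨hD, hout⟩, hin⟩ := h1
  let Ds : Finset (Fin 12) := Finset.univ.filter (fun i => D.testBit i = true)
  have hDs : ∀ i, i ∈ Ds ↔ D.testBit i = true := by intro i; simp [Ds]
  have henc : ∀ (B : Finset (Fin 12)) (m : ℕ), m < 4096 → (∀ i : Fin 12, i ∈ B ↔ m.testBit i = true) →
      enc (flp q B) = enc q ^^^ m := by
    intro B m hm hB
    have hx : enc q ^^^ m < 4096 := Nat.xor_lt_two_pow (n := 12) (enc_lt q) hm
    apply eq_of_bits (enc_lt _) hx
    intro i
    rw [testBit_enc, Nat.testBit_xor, testBit_enc]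
    by_cases hi : i ∈ B
    · have h3 := (hB i).1 hi
      rw [h3]; simp [flp, hi]
    · have h3 : m.testBit i = false := by
        rw [← Bool.not_eq_true]; intro h4; exact hi ((hB i).2 h4)
      rw [h3]; simp [flp, hi]
  apply blocked_of _ q Ds
  · rw [hq]
    have h2 : fl (b.map Prod.fst) (flp q Ds) = (b.map Prod.fst).contains (enc q ^^^ D) := by
      rw [fl, henc Ds D hD hDs]
    rw [h2]
    intro h3
    rw [h3] at hout
    exact absurd hout (by decide)
  · intro i hi
    rw [hq]
    have h4 : (2 ^ (i : ℕ) : ℕ) < 4096 := by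
      calc (2 ^ (i : ℕ) : ℕ) < 2 ^ 12 := Nat.pow_lt_pow_right (by norm_num) i.2
        _ = 4096 := by norm_num
    have h2 : fl (b.map Prod.fst) (flp q {i}) = (b.map Prod.fst).contains (enc q ^^^ 2 ^ (i : ℕ)) := by
      rw [fl, henc {i} (2 ^ (i : ℕ)) h4]
      intro j
      rw [Finset.mem_singleton, Nat.testBit_two_pow, decide_eq_true_eq]
      constructor
      · rintro rfl; rfl
      · intro h5; exact Fin.ext h5.symm
    rw [h2]
    have h3 := hin i i.2
    rcases h3 with h3 | h3
    · exfalso
      have h5 := (hDs i).1 hi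
      rw [h5] at h3
      exact absurd h3 (by decide)
    · exact h3

/-- The sequence of flips, most recent first, each with its set of neighbours. -/
def flips : List (ℕ × ℕ) := [
  (1186, 2324), (1190, 2320), (1442, 2068), (1446, 3088), (422, 2072), (430, 2066), (2470, 1048),
  (2486, 3080), (438, 1288), (2478, 1042), (3502, 26), (428, 2192), (300, 2065), (182, 1036),
  (178, 1096), (242, 1033), (190, 1284), (1214, 268), (186, 1344), (1210, 328), (301, 2128),
  (442, 1092), (317, 2113), (2365, 81), (243, 1064), (1206, 2308), (316, 2240), (444, 2114),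
  (380, 2177), (508, 2051), (250, 1281), (1466, 76), (2349, 97), (446, 3136), (211, 1544),
  (506, 1029), (2317, 577), (510, 3073), (2494, 1090), (2829, 1089), (2364, 208), (2316, 608),
  (2492, 1104), (2380, 545), (2381, 2592), (2828, 1120), (3853, 73), (2860, 1600), (333, 560),
  (2428, 145), (3845, 321), (845, 2096), (2892, 1057), (3852, 104), (3589, 69), (349, 548),
  (365, 2576), (861, 2084), (3653, 261), (2909, 52), (3652, 324), (345, 800), (2476, 1216),
  (3884, 584), (89, 546), (3588, 262), (3590, 388), (1235, 552), (91, 672), (877, 2064),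
  (1470, 2120), (1462, 2116), (2348, 1088), (3846, 134), (3842, 386), (1267, 521), (3518, 74),
  (1526, 2060), (2893, 1060), (1243, 1568), (219, 544), (1534, 2053), (1779, 41), (3516, 88),
  (123, 642), (121, 896), (249, 770), (635, 162), (3372, 200), (633, 416), (761, 290),
  (3586, 131), (603, 138), (595, 1154), (3718, 292), (3364, 704), (3750, 772), (3587, 194),
  (3876, 224), (3585, 193), (3713, 67), (593, 1160), (251, 1792), (3428, 648), (377, 644),
  (763, 1312), (1275, 769), (3940, 168), (381, 2688), (2429, 656), (3651, 146), (3436, 1664),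
  (2412, 641), (2924, 1153), (1787, 289), (893, 2180), (3948, 161), (721, 1034), (723, 1032),
  (3715, 65), (731, 1282), (3844, 196), (505, 518), (507, 1540), (889, 2208), (2413, 640),
  (3840, 448), (3500, 72), (1274, 776), (3916, 137), (2941, 148), (1786, 296), (987, 1058),
  (3667, 2178), (857, 2432), (509, 2562), (1019, 1030), (2925, 1156), (3238, 276), (511, 3584),
  (1266, 832), (1535, 2564), (2541, 529), (2540, 1552), (2937, 176), (3908, 133), (601, 3200),
  (1625, 2184), (3949, 164), (2557, 515), (729, 3328), (1619, 130), (3564, 536), (3052, 1041),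
  (1778, 352), (1617, 2176), (2905, 400), (1745, 2058), (3556, 592), (1753, 2306), (3904, 385),
  (3909, 140), (3234, 784), (3492, 530), (3905, 392), (3746, 304), (2649, 1168), (4037, 13),
  (3494, 532), (3490, 528), (3917, 132), (1747, 2057), (3665, 152), (2559, 1537), (2777, 1296),
  (985, 3104), (2921, 1184), (2889, 1408), (1531, 2561), (1755, 2305), (1754, 2312), (3945, 160),
  (3579, 517), (1746, 2368), (2556, 1538), (3053, 1044), (2009, 2082), (3068, 1027), (3508, 578),
  (3049, 1072), (2633, 1152), (1017, 3076), (2558, 1536), (3580, 522), (3070, 1025),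
  (1530, 2568), (3578, 524), (3913, 384), (4020, 82), (3583, 513), (3802, 265), (1023, 3074),
  (2011, 2081), (4045, 37), (1021, 3072), (2761, 1280), (3673, 144), (1522, 2624), (1202, 2816),
  (3582, 520), (4004, 98), (2041, 2054), (2010, 2088), (3071, 1026), (3657, 136), (3017, 1040),
  (4044, 44), (3785, 280), (3069, 1028), (3065, 1056), (4077, 21), (3570, 580), (3803, 266),
  (4076, 28), (3572, 514), (3972, 70), (3584, 192), (3974, 100), (3649, 129), (2045, 2050),
  (1458, 2560), (4093, 7), (3574, 576), (3033, 1024), (3801, 264), (3712, 322), (1714, 2336),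
  (4036, 38), (1682, 2304), (4092, 14), (4084, 22), (3793, 274), (2002, 2144), (1938, 2080),
  (4038, 36), (1970, 2112), (3968, 66), (3714, 336), (3795, 273), (3648, 128), (3970, 112),
  (3779, 259), (4035, 19), (4002, 84), (2047, 2052), (2034, 2056), (4095, 5), (4068, 6),
  (4006, 80), (4070, 20), (4073, 49), (2042, 2049), (4072, 56), (3777, 257), (4094, 12),
  (4033, 25), (4064, 50), (3776, 258), (3778, 272), (4049, 11), (4086, 68), (4080, 42),
  (3794, 320), (4041, 17), (4089, 35), (3730, 288), (4088, 34), (4022, 516), (4040, 24),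
  (4057, 3), (4051, 9), (3986, 96), (4032, 18), (4034, 48), (2043, 2048), (4066, 16), (4056, 10),
  (3762, 768), (4091, 33), (4048, 2), (3250, 260), (4090, 40), (4059, 1), (4058, 8), (4050, 32),
  (4082, 64), (4018, 512), (3506, 4), (3510, 256), (3254, 0)]

/-- The final list, each code with a certificate that it is blocked. -/
def fin : List (ℕ × ℕ) := [
  (89, 258), (91, 130), (121, 258), (123, 162), (178, 68), (182, 260), (186, 264), (190, 268),
  (211, 544), (219, 1152), (242, 65), (243, 33), (249, 386), (250, 264), (251, 1152), (300, 129),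
  (301, 65), (316, 129), (317, 81), (333, 2064), (345, 260), (349, 20), (365, 576), (377, 260),
  (380, 193), (381, 2080), (422, 1032), (428, 130), (430, 10), (438, 2304), (442, 324),
  (444, 130), (446, 2304), (505, 260), (506, 260), (507, 1026), (508, 130), (509, 2052),
  (510, 2052), (511, 2052), (593, 1034), (595, 1032), (601, 2560), (603, 520), (633, 258),
  (635, 674), (721, 1162), (723, 640), (729, 2080), (731, 1152), (761, 544), (763, 1152),
  (845, 2576), (857, 2560), (861, 2560), (877, 2608), (889, 2560), (893, 160), (985, 2050),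
  (987, 1314), (1017, 2560), (1019, 544), (1021, 1536), (1023, 2052), (1186, 2068), (1190, 2064),
  (1202, 3072), (1206, 1040), (1210, 68), (1214, 1292), (1235, 1568), (1243, 1576), (1266, 1536),
  (1267, 1536), (1274, 1536), (1275, 288), (1442, 2324), (1446, 1280), (1458, 2056),
  (1462, 2304), (1466, 1032), (1470, 2304), (1522, 2304), (1526, 2124), (1530, 3072),
  (1531, 3072), (1534, 1032), (1535, 513), (1617, 3072), (1619, 3072), (1625, 3080),
  (1682, 2144), (1714, 2112), (1745, 3072), (1746, 2080), (1747, 3072), (1753, 384),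
  (1754, 2080), (1755, 3072), (1778, 544), (1779, 545), (1786, 544), (1787, 1032), (1938, 2400),
  (1970, 544), (2002, 72), (2009, 288), (2010, 9), (2011, 3072), (2034, 2304), (2041, 36),
  (2042, 2304), (2043, 3072), (2045, 3078), (2047, 514), (2316, 545), (2317, 544), (2348, 3072),
  (2349, 2080), (2364, 129), (2365, 2129), (2380, 609), (2381, 2112), (2412, 1056), (2413, 2176),
  (2428, 2064), (2429, 576), (2470, 3080), (2476, 3072), (2478, 3072), (2486, 3096),
  (2492, 3072), (2494, 80), (2540, 1025), (2541, 657), (2556, 3072), (2557, 2064), (2558, 2560),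
  (2559, 1026), (2633, 1296), (2649, 2064), (2761, 1424), (2777, 2064), (2828, 1536),
  (2829, 1536), (2860, 1568), (2889, 1040), (2892, 1536), (2893, 3072), (2905, 2064),
  (2909, 2068), (2921, 1040), (2924, 192), (2925, 3072), (2937, 2064), (2941, 544), (3017, 288),
  (3033, 2064), (3049, 36), (3052, 144), (3053, 1536), (3065, 2064), (3068, 18), (3069, 2064),
  (3070, 1539), (3071, 2049), (3234, 2560), (3238, 2560), (3250, 2576), (3364, 648),
  (3372, 1032), (3428, 712), (3436, 1032), (3490, 2560), (3492, 520), (3494, 2560), (3500, 1032),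
  (3502, 1034), (3506, 320), (3508, 520), (3510, 2560), (3516, 1032), (3518, 2064), (3556, 144),
  (3564, 1032), (3570, 72), (3572, 18), (3574, 2560), (3578, 9), (3579, 2565), (3580, 1032),
  (3582, 2560), (3583, 1028), (3584, 257), (3585, 132), (3586, 257), (3587, 65), (3588, 66),
  (3589, 260), (3590, 130), (3648, 132), (3649, 320), (3651, 80), (3652, 325), (3653, 324),
  (3657, 1032), (3665, 2064), (3667, 2064), (3673, 2064), (3712, 257), (3713, 195), (3714, 257),
  (3715, 193), (3718, 160), (3730, 2064), (3746, 544), (3750, 544), (3762, 2064), (3776, 130),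
  (3777, 320), (3778, 18), (3779, 384), (3785, 1032), (3793, 2304), (3794, 2064), (3795, 2304),
  (3801, 2064), (3802, 2313), (3803, 3), (3840, 66), (3842, 390), (3844, 384), (3845, 264),
  (3846, 386), (3852, 1032), (3853, 1032), (3876, 544), (3884, 1032), (3904, 65), (3905, 9),
  (3908, 384), (3909, 384), (3913, 1032), (3916, 1152), (3917, 1152), (3940, 544), (3945, 1188),
  (3948, 1032), (3949, 5), (3968, 260), (3970, 192), (3972, 36), (3974, 320), (3986, 2064),
  (4002, 576), (4004, 544), (4006, 576), (4018, 2064), (4020, 594), (4022, 6), (4032, 288),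
  (4033, 260), (4034, 288), (4035, 275), (4036, 130), (4037, 141), (4038, 102), (4040, 20),
  (4041, 1032), (4044, 132), (4045, 40), (4048, 33), (4049, 257), (4050, 2064), (4051, 24),
  (4056, 18), (4057, 2064), (4058, 2050), (4059, 2056), (4064, 10), (4066, 66), (4068, 544),
  (4070, 48), (4072, 9), (4073, 1025), (4076, 1056), (4077, 1056), (4080, 36), (4082, 2064),
  (4084, 516), (4086, 528), (4088, 36), (4089, 2064), (4090, 2052), (4091, 544), (4092, 1032),
  (4093, 2064), (4094, 1032), (4095, 2049)]

theorem chk_flips : chk flips = true := by decide +kernel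

theorem masks : maskOf (flips.map Prod.fst) = maskOf (3254 :: fin.map Prod.fst) := by decide +kernel

theorem last_step : stepOK 3254 2324 (fin.map Prod.fst) = true := by decide +kernel

theorem blk_fin : blkOK fin (maskOf (fin.map Prod.fst)) = true := by decide +kernel

/-- The base pattern. -/
def base : (Fin 12 → Bool) → Bool := fl (fin.map Prod.fst)

theorem T_base : T base := by
  have h1 := T_chk flips chk_flips
  rw [fl_congr _ _ masks] at h1
  exact (T_step 3254 2324 _ last_step).2 h1

theorem base_blocked (q : Fin 12 → Bool) (hq : base q = true) : Blocked base q :=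
  blocked_blk fin blk_fin q hq

theorem base_true : base (dec 89) = true := by
  show fl (fin.map Prod.fst) (dec 89) = true
  rw [fl_dec (by norm_num)]
  decide +kernel

theorem base_false : base (dec 0) = false := by
  show fl (fin.map Prod.fst) (dec 0) = false
  rw [fl_dec (by norm_num)]
  decide +kernel

end Pool.Agent.Helper514.Data
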