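import Mathlib

open scoped Classical
open Finset

namespace Pool.Agent.Helper514.Hom

/-- `B` is the image of `A` under a homothety `x ↦ l x + t`, `l > 0`. -/
def Homothetic (A B : Finset ℝ) : Prop :=
  ∃ l t : ℝ, 0 < l ∧ A.image (fun x => l * x + t) = B

theorem homothetic_equivalence : Equivalence Homothetic where
  refl A := ⟨1, 0, one_pos, by simp⟩
  symm := by
    rintro A B ⟨l, t, hl, rfl⟩
    refine ⟨l⁻¹, -(l⁻¹ * t), inv_pos.2 hl, ?_⟩
    rw [Finset.image_image]
    have : (fun x => l⁻¹ * x + -(l⁻¹ * t)) ∘ (fun x => l * x + t) = id := by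
      funext x
      simp only [Function.comp, id]
      field_simp
      ring
    rw [this, Finset.image_id]
  trans := by
    rintro A B C ⟨l, t, hl, rfl⟩ ⟨l', t', hl', rfl⟩
    refine ⟨l' * l, l' * t + t', mul_pos hl' hl, ?_⟩
    rw [Finset.image_image]
    congr 1
    funext x
    simp only [Function.comp]
    ring

/-- The equivalence relation whose classes are the homothety classes. -/
def homSetoid : Setoid (Finset ℝ) := ⟨Homothetic, homothetic_equivalence⟩

/-- `c_k(X)`: the number of homothety classes that meet the family of `k`-subsets of `X`. -/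
noncomputable def classCount (k : ℕ) (X : Finset ℝ) : ℕ :=
  ((X.powersetCard k).image (fun A => Quotient.mk homSetoid A)).card

/-- `f_k(n)`: the minimum of `c_k(X)` over all sets `X` of `n` reals. -/
noncomputable def f (k n : ℕ) : ℕ :=
  sInf {m : ℕ | ∃ X : Finset ℝ, X.card = n ∧ m = classCount k X}

/-! ### Cauchy-Schwarz -/

theorem card_sq_le {α β : Type*} [DecidableEq β] (P : Finset α) (q : α → β) :
    P.card ^ 2 ≤ (P.image q).card * ((P ×ˢ P).filter (fun z => q z.1 = q z.2)).card := by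
  have h1 : P.card = ∑ b ∈ P.image q, (P.filter (fun a => q a = b)).card :=
    Finset.card_eq_sum_card_image q P
  have h2 : ((P ×ˢ P).filter (fun z => q z.1 = q z.2)).card =
      ∑ b ∈ P.image q, (P.filter (fun a => q a = b)).card ^ 2 := by
    rw [Finset.card_eq_sum_card_fiberwise (f := fun z : α × α => q z.1) (t := P.image q)]
    · apply Finset.sum_congr rfl
      intro b _
      rw [sq, ← Finset.card_product]
      congr 1
      ext ⟨u, v⟩
      simp only [Finset.mem_filter, Finset.mem_product]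
      constructor
      · rintro ⟨⟨⟨hu, hv⟩, huv⟩, hb⟩
        exact ⟨⟨hu, hb⟩, hv, by rw [← huv, hb]⟩
      · rintro ⟨⟨hu, hb⟩, hv, hb'⟩
        exact ⟨⟨⟨hu, hv⟩, by rw [hb, hb']⟩, hb⟩
    · intro z hz
      simp only [Finset.coe_filter, Finset.mem_product, Set.mem_ofPred_eq] at hz
      exact Finset.mem_coe.2 (Finset.mem_image_of_mem _ hz.1.1)
  rw [h2]
  calc P.card ^ 2 = (∑ b ∈ P.image q, (P.filter (fun a => q a = b)).card) ^ 2 := by rw [← h1]
    _ ≤ (P.image q).card * ∑ b ∈ P.image q, (P.filter (fun a => q a = b)).card ^ 2 :=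
        sq_sum_le_card_mul_sum_sq

/-! ### Telescoping sums -/

theorem sum_one (e m : ℕ) :
    ∑ d ∈ range m, (1 : ℝ) / ((d : ℝ) + e + 2) ^ 3 ≤
      1 / 2 * (1 / (((e : ℝ) + 1) * (e + 2)) - 1 / (((m : ℝ) + e + 1) * (m + e + 2))) := by
  induction m with
  | zero => simp
  | succ m ih =>
    rw [Finset.sum_range_succ]
    have key : (1 : ℝ) / ((m : ℝ) + e + 2) ^ 3 ≤
        1 / 2 * (1 / (((m : ℝ) + e + 1) * (m + e + 2)) -
          1 / ((((m + 1 : ℕ) : ℝ) + e + 1) * ((m + 1 : ℕ) + e + 2))) := by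
      push_cast
      have hx : (0 : ℝ) ≤ (m : ℝ) + e := by positivity
      have e1 : (m : ℝ) + 1 + e + 1 = (m + e) + 2 := by ring
      have e2 : (m : ℝ) + 1 + e + 2 = (m + e) + 3 := by ring
      rw [e1, e2]
      generalize (m : ℝ) + e = x at hx
      have h1 : (1 : ℝ) / 2 * (1 / ((x + 1) * (x + 2)) - 1 / ((x + 2) * (x + 3))) =
          1 / ((x + 1) * (x + 2) * (x + 3)) := by
        field_simp
        ring
      rw [h1]
      apply one_div_le_one_div_of_le (by positivity)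
      nlinarith [hx, mul_nonneg hx hx]
    linarith

theorem sum_two (m : ℕ) :
    ∑ e ∈ range m, (1 : ℝ) / (((e : ℝ) + 1) * (e + 2)) ≤ 1 := by
  have : ∑ e ∈ range m, (1 : ℝ) / (((e : ℝ) + 1) * (e + 2)) = 1 - 1 / ((m : ℝ) + 1) := by
    induction m with
    | zero => simp
    | succ m ih =>
      rw [Finset.sum_range_succ, ih]
      push_cast
      field_simp
      ring
  rw [this]
  have : (0 : ℝ) ≤ 1 / ((m : ℝ) + 1) := by positivity
  linarith

/-- The weight sum `W_k(n) = Σ_{d,e < n} (d + e + 2)^{-(k-1)}`. -/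
noncomputable def W (p n : ℕ) : ℝ :=
  ∑ e ∈ range n, ∑ d ∈ range n, (1 : ℝ) / ((d : ℝ) + e + 2) ^ p

theorem W_three_le (n : ℕ) : W 3 n ≤ 1 / 2 := by
  unfold W
  calc ∑ e ∈ range n, ∑ d ∈ range n, (1 : ℝ) / ((d : ℝ) + e + 2) ^ 3
      ≤ ∑ e ∈ range n, 1 / 2 * ((1 : ℝ) / (((e : ℝ) + 1) * (e + 2))) := by
        apply Finset.sum_le_sum
        intro e _
        refine (sum_one e n).trans ?_
        have : (0 : ℝ) ≤ 1 / (((n : ℝ) + e + 1) * (n + e + 2)) := by positivity
        linarith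
    _ = 1 / 2 * ∑ e ∈ range n, (1 : ℝ) / (((e : ℝ) + 1) * (e + 2)) := by
        rw [Finset.mul_sum]
    _ ≤ 1 / 2 := by
        have := sum_two n
        linarith

theorem W_anti (p n : ℕ) (hp : 3 ≤ p) : W p n ≤ 1 / 2 := by
  refine le_trans ?_ (W_three_le n)
  unfold W
  apply Finset.sum_le_sum
  intro e _
  apply Finset.sum_le_sum
  intro d _
  apply one_div_le_one_div_of_le (by positivity)
  apply pow_le_pow_right₀ _ hp
  have : (0 : ℝ) ≤ (d : ℝ) + e := by positivity
  linarith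

theorem sum_sq (e m : ℕ) :
    ∑ d ∈ range m, (1 : ℝ) / ((d : ℝ) + e + 2) ^ 2 ≤ 1 / ((e : ℝ) + 1) - 1 / ((m : ℝ) + e + 1) := by
  induction m with
  | zero => simp
  | succ m ih =>
    rw [Finset.sum_range_succ]
    have key : (1 : ℝ) / ((m : ℝ) + e + 2) ^ 2 ≤
        1 / ((m : ℝ) + e + 1) - 1 / (((m + 1 : ℕ) : ℝ) + e + 1) := by
      push_cast
      have hx : (0 : ℝ) ≤ (m : ℝ) + e := by positivity
      have e1 : (m : ℝ) + 1 + e + 1 = (m + e) + 2 := by ring
      rw [e1]
      generalize (m : ℝ) + e = x at hx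
      have h1 : (1 : ℝ) / (x + 1) - 1 / (x + 2) = 1 / ((x + 1) * (x + 2)) := by
        field_simp
        ring
      rw [h1]
      apply one_div_le_one_div_of_le (by positivity)
      nlinarith [hx, mul_nonneg hx hx]
    linarith

theorem W_two_le (n : ℕ) : W 2 n ≤ 1 + Real.log n := by
  unfold W
  calc ∑ e ∈ range n, ∑ d ∈ range n, (1 : ℝ) / ((d : ℝ) + e + 2) ^ 2
      ≤ ∑ e ∈ range n, (1 : ℝ) / ((e : ℝ) + 1) := by
        apply Finset.sum_le_sum
        intro e _
        refine (sum_sq e n).trans ?_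
        have : (0 : ℝ) ≤ 1 / ((n : ℝ) + e + 1) := by positivity
        linarith
    _ = ((harmonic n : ℚ) : ℝ) := by
        unfold harmonic
        push_cast
        apply Finset.sum_congr rfl
        intro e _
        rw [one_div]
    _ ≤ 1 + Real.log n := harmonic_le_one_add_log n

/-! ### Bernoulli's inequality for the gaps -/

theorem power_mean (m p : ℕ) (D : ℕ → ℝ) (T : ℝ) (hT : 0 < T)
    (hD : ∀ s < m, 0 < D s) (hs : ∑ s ∈ range m, D s ≤ T) :
    (m : ℝ) ^ (p + 1) ≤ T ^ p * ∑ s ∈ range m, 1 / (D s) ^ p := by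
  rcases Nat.eq_zero_or_pos m with rfl | hm
  · simp
  have hm' : (0 : ℝ) < m := by exact_mod_cast hm
  set c : ℝ := T / m with hc
  have hcpos : 0 < c := by positivity
  have h1 : ∀ s ∈ range m, 1 + (p : ℝ) * (1 - D s / c) ≤ (c / D s) ^ p := by
    intro s hs
    have hDs := hD s (Finset.mem_range.1 hs)
    have hx : 0 < c / D s := by positivity
    have h2 : 1 + (p : ℝ) * (c / D s - 1) ≤ (1 + (c / D s - 1)) ^ p :=
      one_add_mul_le_pow (by linarith) p
    have h3 : 1 - D s / c ≤ c / D s - 1 := by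
      have h4 : (c / D s) * (D s / c) = 1 := by
        field_simp
      nlinarith [sq_nonneg (c / D s - 1), sq_nonneg (D s / c - 1), h4,
        sq_nonneg (c / D s - D s / c), mul_pos hx hx]
    have h5 : (0 : ℝ) ≤ p := by positivity
    have h6 : (1 + (c / D s - 1)) = c / D s := by ring
    rw [h6] at h2
    nlinarith [mul_le_mul_of_nonneg_left h3 h5]
  have h2 := Finset.sum_le_sum h1
  have h3 : ∑ s ∈ range m, (1 + (p : ℝ) * (1 - D s / c)) =
      m + p * (m - (∑ s ∈ range m, D s) / c) := by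
    rw [Finset.sum_add_distrib, ← Finset.mul_sum, Finset.sum_sub_distrib, Finset.sum_div]
    simp
  have h4 : ∑ s ∈ range m, (c / D s) ^ p = c ^ p * ∑ s ∈ range m, 1 / (D s) ^ p := by
    rw [Finset.mul_sum]
    apply Finset.sum_congr rfl
    intro s _
    rw [div_pow]
    ring
  rw [h3, h4] at h2
  have h5 : (∑ s ∈ range m, D s) / c ≤ m := by
    rw [div_le_iff₀ hcpos, hc]
    field_simp
    exact hs
  have h6 : (m : ℝ) ≤ c ^ p * ∑ s ∈ range m, 1 / (D s) ^ p := by
    have : (0 : ℝ) ≤ p * (m - (∑ s ∈ range m, D s) / c) := by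
      apply mul_nonneg (by positivity)
      linarith
    linarith
  have h7 : (m : ℝ) ^ p * c ^ p = T ^ p := by
    rw [← mul_pow, hc]
    congr 1
    field_simp
  calc (m : ℝ) ^ (p + 1) = (m : ℝ) ^ p * m := pow_succ _ _
    _ ≤ (m : ℝ) ^ p * (c ^ p * ∑ s ∈ range m, 1 / (D s) ^ p) :=
        mul_le_mul_of_nonneg_left h6 (by positivity)
    _ = T ^ p * ∑ s ∈ range m, 1 / (D s) ^ p := by rw [← mul_assoc, h7]

/-! ### The index function and the points of a homothety -/

/-- The number of elements of `X` below `x`. -/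
noncomputable def idx (X : Finset ℝ) (x : ℝ) : ℕ := (X.filter (fun y => y < x)).card

theorem idx_lt {X : Finset ℝ} {x y : ℝ} (hx : x ∈ X) (h : x < y) : idx X x < idx X y := by
  unfold idx
  apply Finset.card_lt_card
  rw [Finset.ssubset_iff_of_subset]
  · exact ⟨x, by simp [hx, h], by simp⟩
  · intro z hz
    simp only [Finset.mem_filter] at hz ⊢
    exact ⟨hz.1, hz.2.trans h⟩

theorem idx_lt_card {X : Finset ℝ} {x : ℝ} (hx : x ∈ X) : idx X x < X.card := by
  unfold idx
  apply Finset.card_lt_card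
  rw [Finset.ssubset_iff_of_subset (Finset.filter_subset _ _)]
  exact ⟨x, hx, by simp⟩

theorem idx_inj {X : Finset ℝ} {x y : ℝ} (hx : x ∈ X) (hy : y ∈ X) (h : idx X x = idx X y) :
    x = y := by
  rcases lt_trichotomy x y with h1 | h1 | h1
  · exact absurd h (idx_lt hx h1).ne
  · exact h1
  · exact absurd h (idx_lt hy h1).ne'

/-- The points of `X` that the homothety `φ = (l, t)` sends into `X`. -/
noncomputable def pts (X : Finset ℝ) (φ : ℝ × ℝ) : Finset ℝ :=
  X.filter (fun x => φ.1 * x + φ.2 ∈ X)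

/-- The increasing enumeration of a finite set of reals. -/
noncomputable def enum (S : Finset ℝ) (s : ℕ) : ℝ :=
  if h : s < S.card then S.orderEmbOfFin rfl ⟨s, h⟩ else 0

theorem enum_mem {S : Finset ℝ} {s : ℕ} (h : s < S.card) : enum S s ∈ S := by
  unfold enum
  rw [dif_pos h]
  exact Finset.orderEmbOfFin_mem S rfl _

theorem enum_lt {S : Finset ℝ} {s t : ℕ} (hst : s < t) (h : t < S.card) :
    enum S s < enum S t := by
  unfold enum
  rw [dif_pos h, dif_pos (hst.trans h)]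
  exact (S.orderEmbOfFin rfl).strictMono hst

theorem enum_inj {S : Finset ℝ} {s t : ℕ} (hs : s < S.card) (ht : t < S.card)
    (h : enum S s = enum S t) : s = t := by
  rcases lt_trichotomy s t with h1 | h1 | h1
  · exact absurd h (enum_lt h1 ht).ne
  · exact h1
  · exact absurd h (enum_lt h1 hs).ne'

/-- Index of the `s`-th point of the homothety. -/
noncomputable def ia (X : Finset ℝ) (φ : ℝ × ℝ) (s : ℕ) : ℕ := idx X (enum (pts X φ) s)

/-- Index of the image of the `s`-th point of the homothety. -/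
noncomputable def ib (X : Finset ℝ) (φ : ℝ × ℝ) (s : ℕ) : ℕ :=
  idx X (φ.1 * enum (pts X φ) s + φ.2)

theorem enum_mem_X {X : Finset ℝ} {φ : ℝ × ℝ} {s : ℕ} (h : s < (pts X φ).card) :
    enum (pts X φ) s ∈ X ∧ φ.1 * enum (pts X φ) s + φ.2 ∈ X := by
  have := enum_mem h
  unfold pts at this ⊢
  exact Finset.mem_filter.1 this

theorem ia_lt {X : Finset ℝ} {φ : ℝ × ℝ} {s t : ℕ} (hst : s < t) (h : t < (pts X φ).card) :
    ia X φ s < ia X φ t :=
  idx_lt (enum_mem_X (hst.trans h)).1 (enum_lt hst h)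

theorem ib_lt {X : Finset ℝ} {φ : ℝ × ℝ} (hφ : 0 < φ.1) {s t : ℕ} (hst : s < t)
    (h : t < (pts X φ).card) : ib X φ s < ib X φ t := by
  apply idx_lt (enum_mem_X (hst.trans h)).2
  have := enum_lt hst h
  nlinarith

/-- The gap weight. -/
noncomputable def gap (X : Finset ℝ) (φ : ℝ × ℝ) (s : ℕ) : ℝ :=
  ((ia X φ (s + 1) : ℝ) - ia X φ s) + ((ib X φ (s + 1) : ℝ) - ib X φ s)

theorem gap_sum {X : Finset ℝ} {φ : ℝ × ℝ} :
    ∑ s ∈ range ((pts X φ).card - 1), gap X φ s ≤ 2 * X.card := by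
  rcases Nat.lt_or_ge 0 ((pts X φ).card) with h | h
  · unfold gap
    rw [Finset.sum_add_distrib, Finset.sum_range_sub (fun s => (ia X φ s : ℝ)),
      Finset.sum_range_sub (fun s => (ib X φ s : ℝ))]
    have hlt : (pts X φ).card - 1 < (pts X φ).card := by omega
    have h1 : ia X φ ((pts X φ).card - 1) < X.card := idx_lt_card (enum_mem_X hlt).1
    have h2 : ib X φ ((pts X φ).card - 1) < X.card := idx_lt_card (enum_mem_X hlt).2
    have h3 : (ia X φ ((pts X φ).card - 1) : ℝ) ≤ X.card := by exact_mod_cast h1.le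
    have h4 : (ib X φ ((pts X φ).card - 1) : ℝ) ≤ X.card := by exact_mod_cast h2.le
    have h5 : (0 : ℝ) ≤ ia X φ 0 := by positivity
    have h6 : (0 : ℝ) ≤ ib X φ 0 := by positivity
    linarith
  · have : (pts X φ).card - 1 = 0 := by omega
    rw [this]
    simp

theorem gap_pos {X : Finset ℝ} {φ : ℝ × ℝ} (hφ : 0 < φ.1) :
    ∀ s < (pts X φ).card - 1, 0 < gap X φ s := by
  intro s hs
  have h1 : ia X φ s < ia X φ (s + 1) := ia_lt (Nat.lt_succ_self s) (by omega)
  have h2 : ib X φ s < ib X φ (s + 1) := ib_lt hφ (Nat.lt_succ_self s) (by omega)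
  have h3 : (ia X φ s : ℝ) < ia X φ (s + 1) := by exact_mod_cast h1
  have h4 : (ib X φ s : ℝ) < ib X φ (s + 1) := by exact_mod_cast h2
  unfold gap
  linarith

/-- The key estimate for one homothety. -/
theorem choose_le_gap {X : Finset ℝ} {φ : ℝ × ℝ} (hφ : 0 < φ.1) {p : ℕ} (hp : 1 ≤ p)
    (hX : 0 < X.card) :
    (((pts X φ).card.choose (p + 1) : ℕ) : ℝ) ≤ 2 ^ (p + 1) * ((2 * (X.card : ℝ)) ^ p *
      ∑ s ∈ range ((pts X φ).card - 1), 1 / (gap X φ s) ^ p) := by
  have hX' : (0 : ℝ) < X.card := by exact_mod_cast hX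
  have h1 := power_mean ((pts X φ).card - 1) p (gap X φ) (2 * X.card) (by positivity)
    (gap_pos hφ) gap_sum
  refine le_trans ?_ (mul_le_mul_of_nonneg_left h1 (by positivity))
  rcases Nat.lt_or_ge (pts X φ).card 2 with h | h
  · rw [Nat.choose_eq_zero_of_lt (by omega)]
    simp only [Nat.cast_zero]
    positivity
  · have h2 : (pts X φ).card.choose (p + 1) ≤ (pts X φ).card ^ (p + 1) := Nat.choose_le_pow _ _
    have h3 : (pts X φ).card ≤ 2 * ((pts X φ).card - 1) := by omega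
    have h4 : (pts X φ).card.choose (p + 1) ≤ (2 * ((pts X φ).card - 1)) ^ (p + 1) :=
      h2.trans (Nat.pow_le_pow_left h3 _)
    rw [← mul_pow]
    exact_mod_cast h4

/-! ### Summing over all homotheties -/

/-- The homotheties that send some pair of distinct points of `X` to points of `X`. -/
noncomputable def homs (X : Finset ℝ) : Finset (ℝ × ℝ) :=
  ((X ×ˢ X ×ˢ X ×ˢ X).image (fun z : ℝ × ℝ × ℝ × ℝ =>
    ((z.2.2.2 - z.2.2.1) / (z.2.1 - z.1),
      z.2.2.1 - (z.2.2.2 - z.2.2.1) / (z.2.1 - z.1) * z.1))).filter (fun φ => 0 < φ.1)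

theorem mem_homs {X : Finset ℝ} {l t x y : ℝ} (hl : 0 < l) (hx : x ∈ X) (hy : y ∈ X)
    (hxy : x < y) (hx' : l * x + t ∈ X) (hy' : l * y + t ∈ X) : (l, t) ∈ homs X := by
  unfold homs
  rw [Finset.mem_filter, Finset.mem_image]
  refine ⟨⟨(x, y, l * x + t, l * y + t), ?_, ?_⟩, hl⟩
  · simp [hx, hy, hx', hy']
  · have h : y - x ≠ 0 := (sub_pos.2 hxy).ne'
    have h1 : (l * y + t - (l * x + t)) / (y - x) = l := by
      rw [div_eq_iff h]
      ring
    simp only
    rw [h1]
    simp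

/-- The four indices attached to a homothety and a pair of consecutive points. -/
noncomputable def quad (X : Finset ℝ) (z : (ℝ × ℝ) × ℕ) : (ℕ × ℕ) × (ℕ × ℕ) :=
  ((ia X z.1 z.2, ib X z.1 z.2),
    (ib X z.1 (z.2 + 1) - ib X z.1 z.2 - 1, ia X z.1 (z.2 + 1) - ia X z.1 z.2 - 1))

noncomputable def weight (p : ℕ) (w : (ℕ × ℕ) × (ℕ × ℕ)) : ℝ :=
  1 / ((w.2.2 : ℝ) + w.2.1 + 2) ^ p

theorem sum_gaps_le (X : Finset ℝ) (p : ℕ) :
    ∑ φ ∈ homs X, ∑ s ∈ range ((pts X φ).card - 1), 1 / (gap X φ s) ^ p ≤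
      (X.card : ℝ) ^ 2 * W p X.card := by
  have hpos : ∀ φ ∈ homs X, 0 < φ.1 := fun φ h => (Finset.mem_filter.1 h).2
  set n := X.card with hn
  -- the index set of the left hand side
  set I : Finset ((ℝ × ℝ) × ℕ) :=
    (homs X ×ˢ range n).filter (fun z => z.2 < (pts X z.1).card - 1) with hI
  have hcard : ∀ φ, (pts X φ).card ≤ n := fun φ => Finset.card_le_card (Finset.filter_subset _ _)
  have hIprop : ∀ z ∈ I, 0 < z.1.1 ∧ z.2 + 1 < (pts X z.1).card := by
    intro z hz
    simp only [hI, Finset.mem_filter, Finset.mem_product, Finset.mem_range] at hz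
    exact ⟨hpos _ hz.1.1, by omega⟩
  have e1 : ∑ φ ∈ homs X, ∑ s ∈ range ((pts X φ).card - 1), 1 / (gap X φ s) ^ p =
      ∑ z ∈ I, 1 / (gap X z.1 z.2) ^ p := by
    rw [hI, Finset.sum_filter, Finset.sum_product]
    apply Finset.sum_congr rfl
    intro φ _
    rw [← Finset.sum_filter]
    apply Finset.sum_congr _ (fun _ _ => rfl)
    ext s
    simp only [Finset.mem_range, Finset.mem_filter]
    have := hcard φ
    omega
  have e2 : ∀ z ∈ I, 1 / (gap X z.1 z.2) ^ p = weight p (quad X z) := by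
    intro z hz
    obtain ⟨h1, h2⟩ := hIprop z hz
    have h3 : ia X z.1 z.2 < ia X z.1 (z.2 + 1) := ia_lt (Nat.lt_succ_self _) h2
    have h4 : ib X z.1 z.2 < ib X z.1 (z.2 + 1) := ib_lt h1 (Nat.lt_succ_self _) h2
    unfold weight quad gap
    simp only
    have h5 : (((ia X z.1 (z.2 + 1) - ia X z.1 z.2 - 1 : ℕ) : ℝ)) =
        (ia X z.1 (z.2 + 1) : ℝ) - ia X z.1 z.2 - 1 := by
      rw [Nat.cast_sub (by omega), Nat.cast_sub h3.le]
      simp
    have h6 : (((ib X z.1 (z.2 + 1) - ib X z.1 z.2 - 1 : ℕ) : ℝ)) =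
        (ib X z.1 (z.2 + 1) : ℝ) - ib X z.1 z.2 - 1 := by
      rw [Nat.cast_sub (by omega), Nat.cast_sub h4.le]
      simp
    rw [h5, h6]
    congr 2
    ring
  have hinj : Set.InjOn (quad X) (I : Set ((ℝ × ℝ) × ℕ)) := by
    rintro ⟨⟨l, t⟩, s⟩ hz ⟨⟨l', t'⟩, s'⟩ hz' hq
    obtain ⟨h1, h2⟩ := hIprop _ (Finset.mem_coe.1 hz)
    obtain ⟨h1', h2'⟩ := hIprop _ (Finset.mem_coe.1 hz')
    simp only at h1 h2 h1' h2'
    have h3 : ia X (l, t) s < ia X (l, t) (s + 1) := ia_lt (Nat.lt_succ_self _) h2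
    have h4 : ib X (l, t) s < ib X (l, t) (s + 1) := ib_lt h1 (Nat.lt_succ_self _) h2
    have h3' : ia X (l', t') s' < ia X (l', t') (s' + 1) := ia_lt (Nat.lt_succ_self _) h2'
    have h4' : ib X (l', t') s' < ib X (l', t') (s' + 1) := ib_lt h1' (Nat.lt_succ_self _) h2'
    unfold quad at hq
    simp only [Prod.mk.injEq] at hq
    obtain ⟨⟨q1, q2⟩, q3, q4⟩ := hq
    have q5 : ia X (l, t) (s + 1) = ia X (l', t') (s' + 1) := by omega
    have q6 : ib X (l, t) (s + 1) = ib X (l', t') (s' + 1) := by omega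
    have hs : s < (pts X (l, t)).card := by omega
    have hs' : s' < (pts X (l', t')).card := by omega
    have m1 := enum_mem_X hs
    have m2 := enum_mem_X h2
    have m1' := enum_mem_X hs'
    have m2' := enum_mem_X h2'
    have r1 : enum (pts X (l, t)) s = enum (pts X (l', t')) s' := idx_inj m1.1 m1'.1 q1
    have r2 := idx_inj m1.2 m1'.2 q2
    have r3 : enum (pts X (l, t)) (s + 1) = enum (pts X (l', t')) (s' + 1) :=
      idx_inj m2.1 m2'.1 q5
    have r4 := idx_inj m2.2 m2'.2 q6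
    simp only at r2 r4
    have hlt := enum_lt (Nat.lt_succ_self s) h2
    rw [← r1] at r2
    rw [← r3] at r4
    have hll : l = l' := by
      have : (l - l') * (enum (pts X (l, t)) (s + 1) - enum (pts X (l, t)) s) = 0 := by
        linarith
      rcases mul_eq_zero.1 this with h | h
      · linarith
      · linarith
    subst hll
    have htt : t = t' := by linarith
    subst htt
    have hss : s = s' := enum_inj hs hs' r1
    subst hss
    rfl
  have hmaps : I.image (quad X) ⊆ (range n ×ˢ range n) ×ˢ (range n ×ˢ range n) := by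
    intro w hw
    obtain ⟨z, hz, rfl⟩ := Finset.mem_image.1 hw
    obtain ⟨h1, h2⟩ := hIprop z hz
    have h3 : ia X z.1 (z.2 + 1) < n := idx_lt_card (enum_mem_X h2).1
    have h4 : ib X z.1 (z.2 + 1) < n := idx_lt_card (enum_mem_X h2).2
    have h5 : ia X z.1 z.2 < n := idx_lt_card (enum_mem_X (by omega)).1
    have h6 : ib X z.1 z.2 < n := idx_lt_card (enum_mem_X (by omega)).2
    unfold quad
    simp only [Finset.mem_product, Finset.mem_range]
    omega
  rw [e1, Finset.sum_congr rfl e2, ← Finset.sum_image (f := weight p) hinj]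
  calc ∑ w ∈ I.image (quad X), weight p w
      ≤ ∑ w ∈ (range n ×ˢ range n) ×ˢ (range n ×ˢ range n), weight p w := by
        apply Finset.sum_le_sum_of_subset_of_nonneg hmaps
        intro w _ _
        unfold weight
        positivity
    _ = (n : ℝ) ^ 2 * W p n := by
        rw [Finset.sum_product]
        unfold weight
        simp only
        rw [Finset.sum_const, Finset.card_product, Finset.card_range, nsmul_eq_mul,
          Finset.sum_product]
        unfold W
        push_cast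
        ring

/-- The number of ordered pairs of homothetic `k`-subsets. -/
theorem energy_le (X : Finset ℝ) {p : ℕ} (hp : 1 ≤ p) (hX : 0 < X.card) :
    (((((X.powersetCard (p + 1)) ×ˢ (X.powersetCard (p + 1))).filter
      (fun z => Quotient.mk homSetoid z.1 = Quotient.mk homSetoid z.2)).card : ℕ) : ℝ) ≤
      2 ^ (p + 1) * ((2 * (X.card : ℝ)) ^ p * ((X.card : ℝ) ^ 2 * W p X.card)) := by
  have hpos : ∀ φ ∈ homs X, 0 < φ.1 := fun φ h => (Finset.mem_filter.1 h).2
  set P := X.powersetCard (p + 1) with hP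
  set E := (P ×ˢ P).filter
      (fun z => Quotient.mk homSetoid z.1 = Quotient.mk homSetoid z.2) with hE
  have hex : ∀ z ∈ E, ∃ φ : ℝ × ℝ, 0 < φ.1 ∧ z.1.image (fun x => φ.1 * x + φ.2) = z.2 := by
    intro z hz
    have h := (Finset.mem_filter.1 hz).2
    obtain ⟨l, t, hl, hlt⟩ := Quotient.exact h
    exact ⟨(l, t), hl, hlt⟩
  choose! F hF1 hF2 using hex
  -- the injection
  have hcard : E.card ≤ ((homs X).sigma (fun φ => (pts X φ).powersetCard (p + 1))).card := by
    apply Finset.card_le_card_of_injOn (fun z => (⟨F z, z.1⟩ : Σ _ : ℝ × ℝ, Finset ℝ))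
    · intro z hz
      have hz' := Finset.mem_coe.1 hz
      have hzP := (Finset.mem_product.1 (Finset.mem_filter.1 hz').1)
      obtain ⟨hA, hAc⟩ := Finset.mem_powersetCard.1 hzP.1
      obtain ⟨hB, hBc⟩ := Finset.mem_powersetCard.1 hzP.2
      have himg : ∀ x ∈ z.1, (F z).1 * x + (F z).2 ∈ X := by
        intro x hx
        apply hB
        rw [← hF2 z hz']
        exact Finset.mem_image_of_mem _ hx
      have h2 : 1 < z.1.card := by omega
      obtain ⟨x, hx, y, hy, hxy⟩ := Finset.one_lt_card.1 h2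
      have hmem : F z ∈ homs X := by
        rcases lt_or_gt_of_ne hxy with h | h
        · exact mem_homs (hF1 z hz') (hA hx) (hA hy) h (himg x hx) (himg y hy)
        · exact mem_homs (hF1 z hz') (hA hy) (hA hx) h (himg y hy) (himg x hx)
      rw [Finset.mem_coe, Finset.mem_sigma]
      refine ⟨hmem, ?_⟩
      rw [Finset.mem_powersetCard]
      refine ⟨fun x hx => ?_, hAc⟩
      unfold pts
      rw [Finset.mem_filter]
      exact ⟨hA hx, himg x hx⟩
    · intro z hz z' hz' h
      simp only [Sigma.mk.injEq, heq_eq_eq] at h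
      obtain ⟨h1, h2⟩ := h
      have e1 := hF2 z (Finset.mem_coe.1 hz)
      have e2 := hF2 z' (Finset.mem_coe.1 hz')
      rw [h1, h2, e2] at e1
      exact Prod.ext h2 e1.symm
  have hcard' : (E.card : ℝ) ≤ ∑ φ ∈ homs X, (((pts X φ).card.choose (p + 1) : ℕ) : ℝ) := by
    rw [Finset.card_sigma] at hcard
    have : E.card ≤ ∑ φ ∈ homs X, (pts X φ).card.choose (p + 1) := by
      refine hcard.trans (le_of_eq ?_)
      apply Finset.sum_congr rfl
      intro φ _
      rw [Finset.card_powersetCard]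
    exact_mod_cast this
  refine hcard'.trans ?_
  calc ∑ φ ∈ homs X, (((pts X φ).card.choose (p + 1) : ℕ) : ℝ)
      ≤ ∑ φ ∈ homs X, 2 ^ (p + 1) * ((2 * (X.card : ℝ)) ^ p *
          ∑ s ∈ range ((pts X φ).card - 1), 1 / (gap X φ s) ^ p) :=
        Finset.sum_le_sum (fun φ hφ => choose_le_gap (hpos φ hφ) hp hX)
    _ = 2 ^ (p + 1) * ((2 * (X.card : ℝ)) ^ p *
          ∑ φ ∈ homs X, ∑ s ∈ range ((pts X φ).card - 1), 1 / (gap X φ s) ^ p) := by
        rw [Finset.mul_sum, Finset.mul_sum]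
    _ ≤ _ := by
        apply mul_le_mul_of_nonneg_left _ (by positivity)
        apply mul_le_mul_of_nonneg_left _ (by positivity)
        exact sum_gaps_le X p

/-- Lower bound for the number of classes. -/
theorem classCount_lower (X : Finset ℝ) {p : ℕ} (hp : 1 ≤ p) (hX : p + 1 ≤ X.card) :
    (X.card : ℝ) ^ p ≤ (((p + 1 : ℕ) : ℝ) ^ (p + 1) * ((p + 1).factorial : ℝ)) ^ 2 *
      2 ^ (2 * p + 1) * W p X.card * classCount (p + 1) X := by
  set n := X.card with hn
  have hn0 : 0 < n := by omega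
  have hn0' : (0 : ℝ) < n := by exact_mod_cast hn0
  have h1 := card_sq_le (X.powersetCard (p + 1)) (fun A => Quotient.mk homSetoid A)
  rw [Finset.card_powersetCard] at h1
  have h2 := energy_le X hp hn0
  rw [← hn] at h1 h2
  set E := ((((X.powersetCard (p + 1)) ×ˢ (X.powersetCard (p + 1))).filter
      (fun z => Quotient.mk homSetoid z.1 = Quotient.mk homSetoid z.2)).card) with hE
  have h1' : ((n.choose (p + 1) : ℕ) : ℝ) ^ 2 ≤ (classCount (p + 1) X : ℝ) * (E : ℝ) := by
    have h1'' : n.choose (p + 1) ^ 2 ≤ classCount (p + 1) X * E := h1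
    exact_mod_cast h1''
  -- lower bound for the binomial coefficient
  have h3 : ((n + 1 - (p + 1) : ℕ) : ℝ) ^ (p + 1) / ((p + 1).factorial : ℝ) ≤
      ((n.choose (p + 1) : ℕ) : ℝ) := Nat.pow_le_choose (p + 1) n
  have h4 : (n : ℝ) ≤ ((p + 1 : ℕ) : ℝ) * ((n + 1 - (p + 1) : ℕ) : ℝ) := by
    have : n ≤ (p + 1) * (n + 1 - (p + 1)) := by
      obtain ⟨m, hm⟩ := Nat.exists_eq_add_of_le hX
      have : n + 1 - (p + 1) = m + 1 := by omega
      rw [this, hm]
      nlinarith [Nat.zero_le (p * m)]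
    exact_mod_cast this
  have h5 : (n : ℝ) ^ (p + 1) ≤ ((p + 1 : ℕ) : ℝ) ^ (p + 1) * ((p + 1).factorial : ℝ) *
      ((n.choose (p + 1) : ℕ) : ℝ) := by
    have hfac : (0 : ℝ) < ((p + 1).factorial : ℝ) := by exact_mod_cast Nat.factorial_pos _
    rw [div_le_iff₀ hfac] at h3
    calc (n : ℝ) ^ (p + 1) ≤ (((p + 1 : ℕ) : ℝ) * ((n + 1 - (p + 1) : ℕ) : ℝ)) ^ (p + 1) :=
          pow_le_pow_left₀ hn0'.le h4 _
      _ = ((p + 1 : ℕ) : ℝ) ^ (p + 1) * ((n + 1 - (p + 1) : ℕ) : ℝ) ^ (p + 1) := mul_pow _ _ _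
      _ ≤ ((p + 1 : ℕ) : ℝ) ^ (p + 1) *
          (((n.choose (p + 1) : ℕ) : ℝ) * ((p + 1).factorial : ℝ)) :=
          mul_le_mul_of_nonneg_left h3 (by positivity)
      _ = _ := by ring
  set K : ℝ := ((p + 1 : ℕ) : ℝ) ^ (p + 1) * ((p + 1).factorial : ℝ) with hK
  have hKpos : 0 ≤ K := by positivity
  have hWpos : 0 ≤ W p n := by
    unfold W
    positivity
  have h6 : ((n : ℝ) ^ (p + 1)) ^ 2 ≤ K ^ 2 * ((classCount (p + 1) X : ℝ) *
      (2 ^ (p + 1) * ((2 * (n : ℝ)) ^ p * ((n : ℝ) ^ 2 * W p n)))) := by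
    calc ((n : ℝ) ^ (p + 1)) ^ 2 ≤ (K * ((n.choose (p + 1) : ℕ) : ℝ)) ^ 2 :=
          pow_le_pow_left₀ (by positivity) h5 _
      _ = K ^ 2 * ((n.choose (p + 1) : ℕ) : ℝ) ^ 2 := mul_pow _ _ _
      _ ≤ K ^ 2 * ((classCount (p + 1) X : ℝ) * (E : ℝ)) :=
          mul_le_mul_of_nonneg_left h1' (by positivity)
      _ ≤ _ := by
          apply mul_le_mul_of_nonneg_left _ (by positivity)
          apply mul_le_mul_of_nonneg_left h2 (by positivity)
  have h7 : ((n : ℝ) ^ (p + 1)) ^ 2 = (n : ℝ) ^ p * (n : ℝ) ^ (p + 2) := by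
    rw [← pow_mul, ← pow_add]
    congr 1
    ring
  have h8 : K ^ 2 * ((classCount (p + 1) X : ℝ) *
      (2 ^ (p + 1) * ((2 * (n : ℝ)) ^ p * ((n : ℝ) ^ 2 * W p n)))) =
      (K ^ 2 * 2 ^ (2 * p + 1) * W p n * classCount (p + 1) X) * (n : ℝ) ^ (p + 2) := by
    rw [mul_pow]
    ring
  rw [h7, h8] at h6
  exact le_of_mul_le_mul_right h6 (by positivity)


/-- Lower bound for the number of homothety classes, every `k ≥ 4`. -/
theorem hom_lower : ∀ k : ℕ, 4 ≤ k → ∃ c : ℝ, 0 < c ∧ ∀ X : Finset ℝ, k ≤ X.card →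
      c * (X.card : ℝ) ^ (k - 1) ≤ (classCount k X : ℝ) := by
  intro k hk
  obtain ⟨p, rfl⟩ : ∃ p, k = p + 1 := ⟨k - 1, by omega⟩
  set K : ℝ := (((p + 1 : ℕ) : ℝ) ^ (p + 1) * ((p + 1).factorial : ℝ)) ^ 2 *
    2 ^ (2 * p + 1) with hK
  have hKpos : 0 < K := by
    have : (0 : ℝ) < ((p + 1).factorial : ℝ) := by exact_mod_cast Nat.factorial_pos _
    positivity
  refine ⟨K⁻¹, inv_pos.2 hKpos, fun X hX => ?_⟩
  have h1 := classCount_lower X (p := p) (by omega) hX
  rw [← hK] at h1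
  have h2 := W_anti p X.card (by omega)
  have h3 : (0 : ℝ) ≤ classCount (p + 1) X := by positivity
  have h4 : (X.card : ℝ) ^ p ≤ K * classCount (p + 1) X := by
    have h5 : K * W p X.card * classCount (p + 1) X ≤ K * 1 * classCount (p + 1) X := by
      apply mul_le_mul_of_nonneg_right _ h3
      apply mul_le_mul_of_nonneg_left _ hKpos.le
      linarith
    linarith
  rw [inv_mul_le_iff₀ hKpos]
  simpa using h4

end Pool.Agent.Helper514.Hom
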