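import Mathlib
import Pool.Agent.Helper514.Pattern
import Pool.Agent.Helper514.Rigid
import Pool.Agent.Helper514.IoD

set_option autoImplicit false

open Metric Set Filter Topology
open Pool.Agent.Helper514.Pattern Pool.Agent.Helper514.Rigid

namespace Pool.Agent.Helper514.NonManifold

variable {ι : Type*} [Fintype ι] [DecidableEq ι]

/-- The closed unit cube with lowest corner `c`. -/
def cube (c : ι → ℤ) : Set (ι → ℝ) :=
  {y | ∀ i, ((c i : ℤ) : ℝ) ≤ y i ∧ y i ≤ ((c i : ℤ) : ℝ) + 1}

/-- The union of the cubes of a configuration. -/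
def U (Y : Finset (ι → ℤ)) : Set (ι → ℝ) := ⋃ x ∈ Y, cube x

/-- The corner of the cube at the origin with sign vector `s`. -/
def idx (s : ι → Bool) : ι → ℤ := fun i => if s i then 0 else -1

omit [Fintype ι] [DecidableEq ι] in
theorem idx_injective : Function.Injective (idx : (ι → Bool) → (ι → ℤ)) := by
  intro s t h
  funext i
  have := congrFun h i
  cases hs : s i <;> cases ht : t i <;> simp_all [idx]

omit [Fintype ι] [DecidableEq ι] in
theorem mem_cube_idx (s : ι → Bool) (x : ι → ℝ) :
    x ∈ cube (idx s) ↔ x ∈ orth s ∧ ∀ i, |x i| ≤ 1 := by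
  constructor
  · intro h
    refine ⟨fun i => ?_, fun i => ?_⟩
    · have := h i
      cases hs : s i
      · simp only [idx, hs] at this
        simp only [sg]
        simp at this ⊢
        linarith
      · simp only [idx, hs] at this
        simp only [sg]
        simp at this ⊢
        linarith
    · have := h i
      rw [abs_le]
      cases hs : s i
      · simp only [idx, hs] at this
        simp at this
        constructor <;> linarith
      · simp only [idx, hs] at this
        simp at this
        constructor <;> linarith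
  · rintro ⟨h1, h2⟩ i
    have h3 := h1 i
    have h4 := abs_le.1 (h2 i)
    cases hs : s i
    · simp only [idx, hs]
      rw [hs] at h3
      simp [sg] at h3 ⊢
      constructor <;> linarith
    · simp only [idx, hs]
      rw [hs] at h3
      simp [sg] at h3 ⊢
      constructor <;> linarith

omit [Fintype ι] [DecidableEq ι] in
theorem isClosed_U (Y : Finset (ι → ℤ)) : IsClosed (U Y) := by
  apply isClosed_biUnion_finset
  intro c _
  have : cube c = ⋂ i, {y : ι → ℝ | ((c i : ℤ) : ℝ) ≤ y i ∧ y i ≤ ((c i : ℤ) : ℝ) + 1} := by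
    ext y; simp [cube]
  rw [this]
  apply isClosed_iInter
  intro i
  exact (isClosed_le continuous_const (continuous_apply i)).inter
    (isClosed_le (continuous_apply i) continuous_const)

/-- The neighbourhood used in the local analysis. -/
def N (q : ι → Bool) (A : Finset ι) : Set (ι → ℝ) :=
  {x | (∀ i ∈ A, |x i| < 1/2) ∧ ∀ i, i ∉ A → 0 < sg (q i) * x i ∧ sg (q i) * x i < 1}

theorem isOpen_N (q : ι → Bool) (A : Finset ι) : IsOpen (N q A) := by
  have : N q A = (⋂ i, {x : ι → ℝ | i ∈ A → |x i| < 1/2}) ∩
      ⋂ i, {x : ι → ℝ | i ∉ A → 0 < sg (q i) * x i ∧ sg (q i) * x i < 1} := by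
    ext x; simp [N]
  rw [this]
  apply IsOpen.inter
  · apply isOpen_iInter_of_finite
    intro i
    by_cases h : i ∈ A
    · simp only [h, true_implies]
      exact isOpen_lt (by fun_prop) continuous_const
    · simp [h]
  · apply isOpen_iInter_of_finite
    intro i
    by_cases h : i ∈ A
    · simp [h]
    · simp only [h, not_false_iff, true_implies]
      have hc : Continuous (fun x : ι → ℝ => sg (q i) * x i) := by fun_prop
      exact (isOpen_lt continuous_const hc).inter (isOpen_lt hc continuous_const)

omit [Fintype ι] in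
theorem mem_U_iff (Y : Finset (ι → ℤ)) (q : ι → Bool) (A : Finset ι) (x : ι → ℝ)
    (hx : x ∈ N q A) :
    x ∈ U Y ↔ ∃ B, B ⊆ A ∧ idx (flp q B) ∈ Y ∧ x ∈ orth (flp q B) := by
  constructor
  · intro h
    simp only [U, mem_iUnion] at h
    obtain ⟨c, hcY, hc⟩ := h
    have hc1 : ∀ i, c i = 0 ∨ c i = -1 := by
      intro i
      have h1 := hc i
      have hb : -1 < x i ∧ x i < 1 := by
        by_cases hi : i ∈ A
        · have := abs_lt.1 (hx.1 i hi)
          constructor <;> linarith
        · have h2 := hx.2 i hi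
          cases hq : q i
          · rw [hq] at h2; simp [sg] at h2; constructor <;> linarith
          · rw [hq] at h2; simp [sg] at h2; constructor <;> linarith
      have h3 : (c i : ℝ) < 1 := by linarith
      have h4 : (-2 : ℝ) < c i := by linarith
      have h5 : c i < 1 := by exact_mod_cast h3
      have h6 : -2 < c i := by exact_mod_cast h4
      omega
    let s : ι → Bool := fun i => decide (c i = 0)
    have hs : idx s = c := by
      funext i
      rcases hc1 i with h | h <;> simp [idx, s, h]
    have hxs : x ∈ orth s := by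
      rw [← hs] at hc
      exact ((mem_cube_idx s x).1 hc).1
    have hsq : ∀ i, i ∉ A → s i = q i := fun i hi => eq_of_mem_orth hxs (hx.2 i hi).1
    have hflp : flp q (A.filter (fun i => s i ≠ q i)) = s := by
      funext i
      by_cases hi : i ∈ A
      · by_cases h : s i = q i
        · simp [flp, h]
        · have h2 : s i = !(q i) := by
            cases h1 : s i <;> cases h2 : q i <;> simp_all
          simp [flp, hi, h2]
      · simp [flp, hi, hsq i hi]
    refine ⟨A.filter (fun i => s i ≠ q i), Finset.filter_subset _ _, ?_, ?_⟩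
    · rw [hflp, hs]; exact hcY
    · rw [hflp]; exact hxs
  · rintro ⟨B, hBA, hBY, hxB⟩
    simp only [U, mem_iUnion]
    refine ⟨_, hBY, (mem_cube_idx _ x).2 ⟨hxB, fun i => ?_⟩⟩
    by_cases hi : i ∈ A
    · have := hx.1 i hi; linarith
    · have h2 := hx.2 i hi
      rw [abs_le]
      cases hq : q i
      · rw [hq] at h2; simp [sg] at h2; constructor <;> linarith
      · rw [hq] at h2; simp [sg] at h2; constructor <;> linarith

/-- The hypothesis on the local pattern: `q` and the opposite orthant in the face spanned by `A`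
have the same status, all the others in that face have the other status. -/
def Bad (Y : Finset (ι → ℤ)) (q : ι → Bool) (A : Finset ι) : Prop :=
  2 ≤ A.card ∧ ∃ c : Bool, ∀ B, B ⊆ A → (decide (idx (flp q B) ∈ Y) = c ↔ (B = ∅ ∨ B = A))

omit [Fintype ι] in
theorem flp_flp (q : ι → Bool) (A B : Finset ι) (h : B ⊆ A) :
    flp (flp q A) B = flp q (A \ B) := by
  funext i
  by_cases hA : i ∈ A <;> by_cases hB : i ∈ B
  · simp [flp, hA, hB]
  · simp [flp, hA, hB]
  · exact absurd (h hB) hA
  · simp [flp, hA, hB]

theorem Bad.symm {Y : Finset (ι → ℤ)} {q : ι → Bool} {A : Finset ι} (h : Bad Y q A) :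
    Bad Y (flp q A) A := by
  obtain ⟨h2, c, hc⟩ := h
  refine ⟨h2, c, fun B hB => ?_⟩
  rw [flp_flp q A B hB, hc _ Finset.sdiff_subset]
  constructor
  · rintro (h | h)
    · right
      exact Finset.Subset.antisymm hB (Finset.sdiff_eq_empty_iff_subset.1 h)
    · left
      rw [Finset.eq_empty_iff_forall_notMem]
      intro i hi
      have h3 : i ∈ A \ B := by rw [h]; exact hB hi
      exact (Finset.mem_sdiff.1 h3).2 hi
  · rintro (h | h)
    · right; rw [h, Finset.sdiff_empty]
    · left; rw [h, Finset.sdiff_self]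

omit [Fintype ι] in
theorem N_flp (q : ι → Bool) (A : Finset ι) : N (flp q A) A = N q A := by
  have h : ∀ i, i ∉ A → flp q A i = q i := fun i hi => by simp [flp, hi]
  ext x
  constructor
  · rintro ⟨h1, h2⟩
    refine ⟨h1, fun i hi => ?_⟩
    have h3 := h2 i hi
    rwa [h i hi] at h3
  · rintro ⟨h1, h2⟩
    refine ⟨h1, fun i hi => ?_⟩
    rw [h i hi]; exact h2 i hi

/-- The smallest coordinate in `A`, measured in the direction of `q`. -/
noncomputable def mn (q : ι → Bool) (A : Finset ι) (hA : A.Nonempty) (x : ι → ℝ) : ℝ :=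
  A.inf' hA (fun i => sg (q i) * x i)

omit [Fintype ι] [DecidableEq ι] in
theorem mn_le (q : ι → Bool) (A : Finset ι) (hA : A.Nonempty) (x : ι → ℝ) (i : ι) (hi : i ∈ A) :
    mn q A hA x ≤ sg (q i) * x i := Finset.inf'_le _ hi

omit [Fintype ι] [DecidableEq ι] in
theorem exists_mn (q : ι → Bool) (A : Finset ι) (hA : A.Nonempty) (x : ι → ℝ) :
    ∃ i ∈ A, sg (q i) * x i = mn q A hA x := by
  obtain ⟨i, hi, h⟩ := Finset.exists_mem_eq_inf' hA (fun i => sg (q i) * x i)
  exact ⟨i, hi, h.symm⟩

omit [Fintype ι] [DecidableEq ι] in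
theorem continuous_mn (q : ι → Bool) (A : Finset ι) (hA : A.Nonempty) :
    Continuous (mn q A hA) := by
  apply Continuous.finset_inf'_apply
  intro i _; fun_prop

omit [Fintype ι] in
theorem sg_flp (q : ι → Bool) (A : Finset ι) (i : ι) (hi : i ∈ A) :
    sg (flp q A i) = - sg (q i) := by
  simp [flp, hi, sg_not]

/-- Membership in the union in terms of the two extreme coordinates. -/
theorem mem_U_iff' (Y : Finset (ι → ℤ)) (q : ι → Bool) (A : Finset ι) (hA : A.Nonempty)
    (h2 : 2 ≤ A.card) (c : Bool)
    (hc : ∀ B, B ⊆ A → (decide (idx (flp q B) ∈ Y) = c ↔ (B = ∅ ∨ B = A))) (x : ι → ℝ)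
    (hx : x ∈ N q A) :
    (c = true → (x ∈ U Y ↔ 0 ≤ mn q A hA x ∨ 0 ≤ mn (flp q A) A hA x)) ∧
    (c = false → (x ∈ U Y ↔ mn q A hA x ≤ 0 ∧ mn (flp q A) A hA x ≤ 0)) := by
  rw [mem_U_iff Y q A x hx]
  have hout : ∀ i, i ∉ A → 0 ≤ sg (q i) * x i := fun i hi => (hx.2 i hi).1.le
  have horth : ∀ B, B ⊆ A → (x ∈ orth (flp q B) ↔ (∀ i ∈ B, sg (q i) * x i ≤ 0) ∧
      ∀ i ∈ A, i ∉ B → 0 ≤ sg (q i) * x i) := by
    intro B hB
    constructor
    · intro h
      refine ⟨fun i hi => ?_, fun i _ hi => ?_⟩
      · have h3 := h i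
        rw [sg_flp q B i hi] at h3; linarith
      · have h3 := h i
        simpa [flp, hi] using h3
    · rintro ⟨h3, h4⟩ i
      by_cases hi : i ∈ B
      · rw [sg_flp q B i hi]; have := h3 i hi; linarith
      · have h5 : flp q B i = q i := by simp [flp, hi]
        rw [h5]
        by_cases hiA : i ∈ A
        · exact h4 i hiA hi
        · exact hout i hiA
  constructor
  · intro hct
    subst hct
    constructor
    · rintro ⟨B, hB, hBY, hxB⟩
      have h3 := (hc B hB).1 (by simpa using hBY)
      rw [horth B hB] at hxB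
      rcases h3 with rfl | rfl
      · left
        apply Finset.le_inf'
        intro i hi
        exact hxB.2 i hi (Finset.notMem_empty i)
      · right
        apply Finset.le_inf'
        intro i hi
        rw [sg_flp q B i hi]; have := hxB.1 i hi; linarith
    · rintro (h | h)
      · refine ⟨∅, Finset.empty_subset _, ?_, ?_⟩
        · have := (hc ∅ (Finset.empty_subset _)).2 (Or.inl rfl)
          simpa using this
        · rw [horth ∅ (Finset.empty_subset _)]
          exact ⟨fun i hi => absurd hi (Finset.notMem_empty i),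
            fun i hi _ => h.trans (mn_le q A hA x i hi)⟩
      · refine ⟨A, Finset.Subset.refl _, ?_, ?_⟩
        · have := (hc A (Finset.Subset.refl _)).2 (Or.inr rfl)
          simpa using this
        · rw [horth A (Finset.Subset.refl _)]
          refine ⟨fun i hi => ?_, fun i hi hi' => absurd hi hi'⟩
          have := h.trans (mn_le (flp q A) A hA x i hi)
          rw [sg_flp q A i hi] at this; linarith
  · intro hcf
    subst hcf
    have hY : ∀ B, B ⊆ A → (idx (flp q B) ∈ Y ↔ ¬ (B = ∅ ∨ B = A)) := by
      intro B hB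
      rw [← hc B hB]; simp
    constructor
    · rintro ⟨B, hB, hBY, hxB⟩
      rw [hY B hB] at hBY
      push Not at hBY
      rw [horth B hB] at hxB
      obtain ⟨i, hi⟩ := hBY.1
      obtain ⟨j, hjA, hjB⟩ : ∃ j ∈ A, j ∉ B := by
        by_contra hno
        push Not at hno
        exact hBY.2 (Finset.Subset.antisymm hB hno)
      refine ⟨(mn_le q A hA x i (hB hi)).trans (hxB.1 i hi), ?_⟩
      have h3 := mn_le (flp q A) A hA x j hjA
      rw [sg_flp q A j hjA] at h3
      have h4 := hxB.2 j hjA hjB
      linarith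
    · rintro ⟨h3, h4⟩
      obtain ⟨i, hi, hix⟩ := exists_mn q A hA x
      obtain ⟨j, hj, hjx⟩ := exists_mn (flp q A) A hA x
      rw [sg_flp q A j hj] at hjx
      obtain ⟨i, j, hi, hj, hij, hi0, hj0⟩ : ∃ i j, i ∈ A ∧ j ∈ A ∧ i ≠ j ∧
          sg (q i) * x i ≤ 0 ∧ 0 ≤ sg (q j) * x j := by
        by_cases hij : i = j
        · subst hij
          obtain ⟨k, hk, hki⟩ := Finset.exists_mem_ne h2 i
          rcases le_or_gt 0 (sg (q k) * x k) with h5 | h5
          · exact ⟨i, k, hi, hk, hki.symm, by linarith, h5⟩
          · exact ⟨k, i, hk, hi, hki, h5.le, by linarith⟩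
        · exact ⟨i, j, hi, hj, hij, by linarith, by linarith⟩
      let B : Finset ι := A.filter (fun k => k = i ∨ (k ≠ j ∧ sg (q k) * x k < 0))
      have hB : B ⊆ A := Finset.filter_subset _ _
      have hiB : i ∈ B := by simp [B, hi]
      have hjB : j ∉ B := by simp [B, hij.symm]
      refine ⟨B, hB, ?_, ?_⟩
      · rw [hY B hB]
        push Not
        refine ⟨⟨i, hiB⟩, ?_⟩
        intro h; exact hjB (h ▸ hj)
      · rw [horth B hB]
        refine ⟨fun k hk => ?_, fun k hkA hk => ?_⟩
        · have h5 : k = i ∨ (k ≠ j ∧ sg (q k) * x k < 0) := by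
            simpa [B, hB hk] using hk
          rcases h5 with rfl | ⟨_, h6⟩
          · exact hi0
          · exact h6.le
        · have h5 : ¬ (k = i ∨ (k ≠ j ∧ sg (q k) * x k < 0)) := by
            simpa [B, hkA] using hk
          push Not at h5
          by_cases hkj : k = j
          · rw [hkj]; exact hj0
          · exact h5.2 hkj

/-- Points of the neighbourhood whose smallest coordinate is zero are boundary points. -/
theorem mem_frontier (Y : Finset (ι → ℤ)) (q : ι → Bool) (A : Finset ι) (hA : A.Nonempty)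
    (hbad : Bad Y q A) (w : ι → ℝ) (hw : w ∈ N q A) (hw0 : mn q A hA w = 0) :
    w ∈ frontier (U Y) := by
  obtain ⟨h2, c, hc⟩ := hbad
  have hiff := fun x hx => mem_U_iff' Y q A hA h2 c hc x hx
  obtain ⟨i, hi, hiw⟩ := exists_mn q A hA w
  rw [hw0] at hiw
  rw [frontier_eq_closure_inter_closure]
  have hflow : ∀ v : ι → ℝ, (∀ᶠ t : ℝ in 𝓝[>] 0, w + t • v ∈ N q A) ∧
      Tendsto (fun t : ℝ => w + t • v) (𝓝[>] 0) (𝓝 w) := by
    intro v
    have hcont : Continuous (fun t : ℝ => w + t • v) := by fun_prop
    have h3 : Tendsto (fun t : ℝ => w + t • v) (𝓝[>] 0) (𝓝 w) := by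
      have h4 := hcont.tendsto 0
      simp only [zero_smul, add_zero] at h4
      exact h4.mono_left nhdsWithin_le_nhds
    exact ⟨h3.eventually ((isOpen_N q A).mem_nhds hw), h3⟩
  have hpos : ∀ᶠ t : ℝ in 𝓝[>] (0:ℝ), 0 < t := eventually_mem_nhdsWithin
  cases c
  · -- the two opposite orthants are absent
    constructor
    · apply subset_closure
      rw [(hiff w hw).2 rfl]
      refine ⟨hw0.le, ?_⟩
      have h3 := mn_le (flp q A) A hA w i hi
      rw [sg_flp q A i hi] at h3; linarith
    · let v : ι → ℝ := fun k => if k ∈ A then sg (q k) else 0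
      obtain ⟨h3, h4⟩ := hflow v
      apply mem_closure_of_tendsto h4
      filter_upwards [h3, hpos] with t ht ht0
      show w + t • v ∉ U Y
      rw [(hiff _ ht).2 rfl]
      push Not
      intro h5
      exfalso
      obtain ⟨k, hk, hkx⟩ := exists_mn q A hA (w + t • v)
      have h6 : sg (q k) * (w + t • v) k = sg (q k) * w k + t := by
        have h7 : v k = sg (q k) := by simp [v, hk]
        rw [Pi.add_apply, Pi.smul_apply, h7, smul_eq_mul]
        have := sg_mul_self (q k)
        linear_combination t * this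
      have h8 := mn_le q A hA w k hk
      linarith
  · constructor
    · apply subset_closure
      rw [(hiff w hw).1 rfl]
      left; exact hw0.ge
    · obtain ⟨j, hj, hji⟩ := Finset.exists_mem_ne h2 i
      let v : ι → ℝ := fun k => if k = i then - sg (q k) else if k = j then sg (q k) else 0
      obtain ⟨h3, h4⟩ := hflow v
      apply mem_closure_of_tendsto h4
      filter_upwards [h3, hpos] with t ht ht0
      show w + t • v ∉ U Y
      rw [(hiff _ ht).1 rfl]
      push Not
      constructor
      · have h5 := mn_le q A hA (w + t • v) i hi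
        have h6 : sg (q i) * (w + t • v) i = sg (q i) * w i - t := by
          have h7 : v i = - sg (q i) := by simp [v]
          rw [Pi.add_apply, Pi.smul_apply, h7, smul_eq_mul]
          have := sg_mul_self (q i)
          linear_combination -t * this
        linarith
      · have h5 := mn_le (flp q A) A hA (w + t • v) j hj
        rw [sg_flp q A j hj] at h5
        have h6 : sg (q j) * (w + t • v) j = sg (q j) * w j + t := by
          have h7 : v j = sg (q j) := by simp [v, hji]
          rw [Pi.add_apply, Pi.smul_apply, h7, smul_eq_mul]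
          have := sg_mul_self (q j)
          linear_combination t * this
        have h8 := mn_le q A hA w j hj
        linarith

/-- A configuration with a bad local pattern at the origin is not bounded by a sphere. -/
theorem not_sphere (Y : Finset (ι → ℤ)) (q : ι → Bool) (A : Finset ι) (hbad : Bad Y q A) :
    ¬ Nonempty (↥(frontier (U Y)) ≃ₜ ↥(sphere (0 : EuclideanSpace ℝ ι) 1)) := by
  rintro ⟨e⟩
  have h2 : 2 ≤ A.card := hbad.1
  have hA : A.Nonempty := Finset.card_pos.1 (by omega)
  classical
  -- the total extension of the homeomorphism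
  let e' : (ι → ℝ) → EuclideanSpace ℝ ι := fun x =>
    if h : x ∈ frontier (U Y) then (e ⟨x, h⟩ : EuclideanSpace ℝ ι) else 0
  have he' : ∀ x (h : x ∈ frontier (U Y)), e' x = (e ⟨x, h⟩ : EuclideanSpace ℝ ι) := by
    intro x h; simp [e', h]
  have hec : ContinuousOn e' (frontier (U Y)) := by
    rw [continuousOn_iff_continuous_domRestrict]
    have h3 : (frontier (U Y)).domRestrict e' = fun x => (e x : EuclideanSpace ℝ ι) := by
      funext x
      exact he' x x.2
    rw [h3]
    exact continuous_subtype_val.comp e.continuous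
  have hen : ∀ x ∈ frontier (U Y), ‖e' x‖ = 1 := by
    intro x hx
    rw [he' x hx]
    have := (e ⟨x, hx⟩).2
    rwa [mem_sphere, dist_zero_right] at this
  have hei : InjOn e' (frontier (U Y)) := by
    intro x hx y hy hxy
    rw [he' x hx, he' y hy] at hxy
    have h3 := e.injective (Subtype.ext hxy)
    exact congrArg Subtype.val h3
  -- the projection along the diagonal of the face
  let m : (ι → ℝ) → ℝ := mn q A hA
  have hmc : Continuous m := continuous_mn q A hA
  let u : ι → ℝ := fun k => if k ∈ A then sg (q k) else 0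
  have hm : ∀ x (t : ℝ), m (x + t • u) = m x + t := by
    intro x t
    show A.inf' hA (fun i => sg (q i) * (x + t • u) i) = _
    rw [show m x + t = A.inf' hA (fun i => sg (q i) * x i + t) from
      (Pattern.inf'_add_const A hA _ t).symm]
    apply Finset.inf'_congr hA rfl
    intro i hi
    have h7 : u i = sg (q i) := by simp [u, hi]
    rw [Pi.add_apply, Pi.smul_apply, h7, smul_eq_mul]
    have := sg_mul_self (q i)
    linear_combination t * this
  let w : (ι → ℝ) → (ι → ℝ) := fun x => x + (- m x) • u
  have hwc : Continuous w := continuous_id.add (hmc.neg.smul continuous_const)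
  have hmw : ∀ x, m (w x) = 0 := by
    intro x
    show m (x + (- m x) • u) = 0
    rw [hm]; ring
  let p : ι → ℝ := fun k => if k ∈ A then 0 else sg (q k) / 2
  have hpN : p ∈ N q A := by
    constructor
    · intro i hi; simp [p, hi]
    · intro i hi
      have : p i = sg (q i) / 2 := by simp [p, hi]
      rw [this]
      have h3 := sg_mul_self (q i)
      constructor <;> linarith
  have hmp : m p = 0 := by
    have h3 : ∀ i ∈ A, sg (q i) * p i = 0 := by
      intro i hi; simp [p, hi]
    obtain ⟨i, hi, hix⟩ := exists_mn q A hA p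
    show mn q A hA p = 0
    rw [← hix, h3 i hi]
  have hwp : w p = p := by
    show p + (- m p) • u = p
    rw [hmp, neg_zero, zero_smul, add_zero]
  let L : EuclideanSpace ℝ ι ≃L[ℝ] (ι → ℝ) := EuclideanSpace.equiv ι ℝ
  let p' : EuclideanSpace ℝ ι := L.symm p
  have hLp : L p' = p := L.apply_symm_apply p
  have hopen : IsOpen (L ⁻¹' (w ⁻¹' (N q A))) :=
    ((isOpen_N q A).preimage hwc).preimage L.continuous
  have hp'mem : p' ∈ L ⁻¹' (w ⁻¹' (N q A)) := by
    show w (L p') ∈ N q A
    rw [hLp, hwp]; exact hpN
  obtain ⟨r, hr, hball⟩ := Metric.nhds_basis_closedBall.mem_iff.1 (hopen.mem_nhds hp'mem)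
  have hfr : ∀ x, w x ∈ N q A → w x ∈ frontier (U Y) := by
    intro x hx
    exact mem_frontier Y q A hA hbad (w x) hx (hmw x)
  let f : EuclideanSpace ℝ ι → EuclideanSpace ℝ ι := fun y => Real.exp (m (L y)) • e' (w (L y))
  have hfc : ContinuousOn f (closedBall p' r) := by
    have h3 : ContinuousOn (fun y => Real.exp (m (L y))) (closedBall p' r) :=
      (Real.continuous_exp.comp (hmc.comp L.continuous)).continuousOn
    have h4 : ContinuousOn (fun y => e' (w (L y))) (closedBall p' r) := by
      apply hec.comp (hwc.comp L.continuous).continuousOn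
      intro y hy
      exact hfr _ (hball hy)
    exact h3.smul h4
  have hfinj : InjOn f (closedBall p' r) := by
    intro y hy z hz hyz
    have h3 : Real.exp (m (L y)) • e' (w (L y)) = Real.exp (m (L z)) • e' (w (L z)) := hyz
    have h4 := congrArg norm h3
    rw [norm_smul, norm_smul, hen _ (hfr _ (hball hy)), hen _ (hfr _ (hball hz)), mul_one, mul_one,
      Real.norm_eq_abs, Real.norm_eq_abs, abs_of_pos (Real.exp_pos _),
      abs_of_pos (Real.exp_pos _)] at h4
    have h5 : m (L y) = m (L z) := Real.exp_injective h4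
    rw [h5] at h3
    have h6 : e' (w (L y)) = e' (w (L z)) :=
      smul_right_injective _ (Real.exp_pos (m (L z))).ne' h3
    have h7 := hei (hfr _ (hball hy)) (hfr _ (hball hz)) h6
    have h8 : L y + (- m (L y)) • u = L z + (- m (L z)) • u := h7
    rw [h5] at h8
    exact L.injective (add_right_cancel h8)
  have himg := IoD.image_mem_nhds f p' r hr hfc hfinj
  have hfp : f p' = e' p := by
    show Real.exp (m (L p')) • e' (w (L p')) = e' p
    rw [hLp, hmp, hwp, Real.exp_zero, one_smul]
  rw [hfp] at himg
  -- the points of the other sheet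
  obtain ⟨j, hj⟩ := hA
  obtain ⟨i, hi, hij⟩ := Finset.exists_mem_ne h2 j
  let v : ι → ℝ := fun k => if k ∈ A ∧ k ≠ j then - sg (q k) else 0
  let z : ℝ → (ι → ℝ) := fun t => p + t • v
  have hzc : Continuous z := by fun_prop
  have hz0 : z 0 = p := by simp [z]
  have hzt : Tendsto z (𝓝[>] 0) (𝓝 p) := by
    have h4 := hzc.tendsto 0
    rw [hz0] at h4
    exact h4.mono_left nhdsWithin_le_nhds
  have hzN : ∀ᶠ t in 𝓝[>] (0:ℝ), z t ∈ N q A := hzt.eventually ((isOpen_N q A).mem_nhds hpN)
  have hpos : ∀ᶠ t : ℝ in 𝓝[>] (0:ℝ), 0 < t := eventually_mem_nhdsWithin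
  have hzfr : ∀ᶠ t in 𝓝[>] (0:ℝ), z t ∈ frontier (U Y) := by
    filter_upwards [hzN, hpos] with t ht ht0
    apply mem_frontier Y (flp q A) A ⟨j, hj⟩ hbad.symm (z t)
    · rw [N_flp]; exact ht
    · apply le_antisymm
      · have h3 := mn_le (flp q A) A ⟨j, hj⟩ (z t) j hj
        rw [sg_flp q A j hj] at h3
        have h4 : z t j = 0 := by simp [z, p, v, hj]
        rw [h4] at h3; linarith
      · apply Finset.le_inf'
        intro k hk
        rw [sg_flp q A k hk]
        by_cases hkj : k = j
        · have h4 : z t k = 0 := by simp [z, p, v, hj, hkj]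
          rw [h4]; linarith
        · have h4 : z t k = - t * sg (q k) := by simp [z, p, v, hk, hkj]
          rw [h4]
          have := sg_mul_self (q k)
          nlinarith
  have hzm : ∀ᶠ t in 𝓝[>] (0:ℝ), m (z t) < 0 := by
    filter_upwards [hpos] with t ht0
    have h3 := mn_le q A ⟨j, hj⟩ (z t) i hi
    have h4 : z t i = - t * sg (q i) := by simp [z, p, v, hi, hij]
    rw [h4] at h3
    have := sg_mul_self (q i)
    have h5 : m (z t) ≤ - t := by
      calc m (z t) ≤ sg (q i) * (- t * sg (q i)) := h3
        _ = - t := by linear_combination (-t) * this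
    linarith
  have hpfr : p ∈ frontier (U Y) := by
    have := hfr p (by rw [hwp]; exact hpN)
    rwa [hwp] at this
  have htend : Tendsto (fun t => e' (z t)) (𝓝[>] 0) (𝓝 (e' p)) := by
    have h3 : Tendsto z (𝓝[>] 0) (𝓝[frontier (U Y)] p) :=
      tendsto_nhdsWithin_iff.2 ⟨hzt, hzfr⟩
    exact (hec p hpfr).tendsto.comp h3
  have hev : ∀ᶠ t in 𝓝[>] (0:ℝ), e' (z t) ∈ f '' closedBall p' r := htend.eventually himg
  obtain ⟨t, ht1, ht2, ht3⟩ := (hev.and (hzfr.and hzm)).exists
  obtain ⟨y, hy, hye⟩ := ht1
  have h3 : Real.exp (m (L y)) • e' (w (L y)) = e' (z t) := hye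
  have h4 := congrArg norm h3
  rw [norm_smul, hen _ (hfr _ (hball hy)), hen _ ht2, mul_one, Real.norm_eq_abs,
    abs_of_pos (Real.exp_pos _)] at h4
  rw [h4, one_smul] at h3
  have h5 := hei (hfr _ (hball hy)) ht2 h3
  have h6 := hmw (L y)
  rw [h5] at h6
  linarith

end Pool.Agent.Helper514.NonManifold
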