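import Mathlib
import Pool.Agent.Helper514.Pattern

set_option autoImplicit false

open Metric Set Filter Topology
open Pool.Agent.Helper514.Pattern

namespace Pool.Agent.Helper514.Sphere

section rescale

variable {X : Type*} [NormedAddCommGroup X] [NormedSpace ℝ X]

theorem rescale_cont (Φ : X ≃ₜ X) (h0 : Φ 0 = 0) :
    Continuous (fun x => (‖x‖ / ‖Φ x‖) • Φ x) := by
  have hne : ∀ x, x ≠ 0 → Φ x ≠ 0 := by
    intro x hx h
    apply hx
    apply Φ.injective
    rw [h, h0]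
  have hnorm : ∀ x, ‖(‖x‖ / ‖Φ x‖) • Φ x‖ = ‖x‖ := by
    intro x
    by_cases hx : x = 0
    · subst hx; simp
    · have : ‖Φ x‖ ≠ 0 := norm_ne_zero_iff.2 (hne x hx)
      rw [norm_smul, norm_div, norm_norm, norm_norm, div_mul_cancel₀ _ this]
  rw [continuous_iff_continuousAt]
  intro x
  by_cases hx : x = 0
  · subst hx
    rw [ContinuousAt]
    have h1 : (‖(0:X)‖ / ‖Φ 0‖) • Φ 0 = 0 := by simp
    rw [h1, tendsto_zero_iff_norm_tendsto_zero]
    simp_rw [hnorm]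
    have : Tendsto (fun x : X => ‖x‖) (𝓝 0) (𝓝 ‖(0:X)‖) := continuous_norm.tendsto 0
    simpa using this
  · have hΦ : Continuous Φ := Φ.continuous
    apply ContinuousAt.smul _ hΦ.continuousAt
    exact continuous_norm.continuousAt.div hΦ.norm.continuousAt (norm_ne_zero_iff.2 (hne x hx))

/-- A homogeneous homeomorphism can be rescaled to preserve the norm. -/
theorem rescale (Φ : X ≃ₜ X) (hh : ∀ t : ℝ, 0 ≤ t → ∀ x, Φ (t • x) = t • Φ x) :
    ∃ Ψ : X ≃ₜ X, (∀ x, ‖Ψ x‖ = ‖x‖) ∧ ∀ x, ∃ c : ℝ, 0 < c ∧ Ψ x = c • Φ x := by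
  have h0 : Φ 0 = 0 := by
    have := hh 0 le_rfl 0
    simpa using this
  have h0' : Φ.symm 0 = 0 := by rw [Homeomorph.symm_apply_eq, h0]
  have hh' : ∀ t : ℝ, 0 ≤ t → ∀ x, Φ.symm (t • x) = t • Φ.symm x := by
    intro t ht x
    rw [Homeomorph.symm_apply_eq, hh t ht, Homeomorph.apply_symm_apply]
  have hne : ∀ x, x ≠ 0 → Φ x ≠ 0 := by
    intro x hx h
    apply hx
    apply Φ.injective
    rw [h, h0]
  have hne' : ∀ x, x ≠ 0 → Φ.symm x ≠ 0 := by
    intro x hx h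
    apply hx
    apply Φ.symm.injective
    rw [h, h0']
  have key : ∀ (A B : X ≃ₜ X), (∀ t : ℝ, 0 ≤ t → ∀ x, B (t • x) = t • B x) →
      (∀ x, B (A x) = x) → (∀ x, x ≠ 0 → A x ≠ 0) → A 0 = 0 → B 0 = 0 →
      ∀ x, (‖(‖x‖ / ‖A x‖) • A x‖ / ‖B ((‖x‖ / ‖A x‖) • A x)‖) • B ((‖x‖ / ‖A x‖) • A x) = x := by
    intro A B hB hBA hA hA0 hB0 x
    by_cases hx : x = 0
    · subst hx; simp [hB0]
    · have h1 : ‖A x‖ ≠ 0 := norm_ne_zero_iff.2 (hA x hx)
      have h2 : ‖x‖ ≠ 0 := norm_ne_zero_iff.2 hx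
      have h3 : 0 ≤ ‖x‖ / ‖A x‖ := by positivity
      rw [hB _ h3, hBA]
      have h4 : ‖(‖x‖ / ‖A x‖) • A x‖ = ‖x‖ := by
        rw [norm_smul, norm_div, norm_norm, norm_norm, div_mul_cancel₀ _ h1]
      have h5 : ‖(‖x‖ / ‖A x‖) • x‖ = ‖x‖ / ‖A x‖ * ‖x‖ := by
        rw [norm_smul, norm_div, norm_norm, norm_norm]
      rw [h4, h5, smul_smul]
      have : ‖x‖ / (‖x‖ / ‖A x‖ * ‖x‖) * (‖x‖ / ‖A x‖) = 1 := by
        field_simp
      rw [this, one_smul]
  let Ψ : X ≃ₜ X :=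
    { toFun := fun x => (‖x‖ / ‖Φ x‖) • Φ x
      invFun := fun x => (‖x‖ / ‖Φ.symm x‖) • Φ.symm x
      left_inv := key Φ Φ.symm hh' (fun x => Φ.symm_apply_apply x) hne h0 h0'
      right_inv := key Φ.symm Φ hh (fun x => Φ.apply_symm_apply x) hne' h0' h0
      continuous_toFun := rescale_cont Φ h0
      continuous_invFun := rescale_cont Φ.symm h0' }
  have hΨ : ∀ x, Ψ x = (‖x‖ / ‖Φ x‖) • Φ x := fun _ => rfl
  refine ⟨Ψ, ?_, ?_⟩
  · intro x
    rw [hΨ]
    by_cases hx : x = 0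
    · subst hx; simp
    · have : ‖Φ x‖ ≠ 0 := norm_ne_zero_iff.2 (hne x hx)
      rw [norm_smul, norm_div, norm_norm, norm_norm, div_mul_cancel₀ _ this]
  · intro x
    rw [hΨ]
    by_cases hx : x = 0
    · subst hx
      exact ⟨1, one_pos, by simp [h0]⟩
    · refine ⟨‖x‖ / ‖Φ x‖, ?_, rfl⟩
      have h1 : 0 < ‖Φ x‖ := norm_pos_iff.2 (hne x hx)
      have h2 : 0 < ‖x‖ := norm_pos_iff.2 hx
      positivity

end rescale

variable {ι : Type*} [Fintype ι]

/-- For a standard pattern, the part of the true cone in the unit ball of the maximum norm is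
bounded by a sphere. -/
theorem frontier_homeo (f : (ι → Bool) → Bool) (hT : T f) :
    Nonempty (↥(frontier (K f true ∩ closedBall (0 : ι → ℝ) 1)) ≃ₜ
      ↥(sphere (0 : EuclideanSpace ℝ ι) 1)) := by
  obtain ⟨i0, Φ, hh, h1, -⟩ := hT
  obtain ⟨Ψ, hn, hc⟩ := rescale Φ hh
  let D : Set (ι → ℝ) := {y | 0 ≤ y i0} ∩ closedBall 0 1
  have hU : K f true ∩ closedBall (0 : ι → ℝ) 1 = Ψ ⁻¹' D := by
    ext x
    simp only [mem_inter_iff, mem_preimage, D, mem_ofPred_eq, mem_closedBall, dist_zero_right, hn]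
    rw [h1]
    obtain ⟨c, hc0, hcx⟩ := hc x
    rw [hcx, Pi.smul_apply, smul_eq_mul, mul_nonneg_iff_of_pos_left hc0]
  let L : EuclideanSpace ℝ ι ≃L[ℝ] (ι → ℝ) := EuclideanSpace.equiv ι ℝ
  let D' : Set (EuclideanSpace ℝ ι) := L ⁻¹' D
  have hDconv : Convex ℝ D := by
    apply Convex.inter _ (convex_closedBall _ _)
    exact convex_halfSpace_ge (f := fun y : ι → ℝ => y i0) ⟨fun _ _ => rfl, fun _ _ => rfl⟩ 0
  have hD'conv : Convex ℝ D' := hDconv.linear_preimage (L : EuclideanSpace ℝ ι →ₗ[ℝ] (ι → ℝ))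
  have hD'int : (interior D').Nonempty := by
    let O : Set (ι → ℝ) := {y | 0 < y i0} ∩ ball 0 1
    have hO : IsOpen O := (isOpen_lt continuous_const (continuous_apply i0)).inter isOpen_ball
    have hOD : O ⊆ D := by
      rintro y ⟨hy1, hy2⟩
      exact ⟨(le_of_lt hy1 : (0:ℝ) ≤ y i0), ball_subset_closedBall hy2⟩
    have hy : (fun _ => 1/2 : ι → ℝ) ∈ O := by
      refine ⟨by show (0:ℝ) < 1/2; norm_num, ?_⟩
      rw [mem_ball, dist_zero_right, pi_norm_lt_iff one_pos]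
      intro i; norm_num
    refine ⟨L.symm (fun _ => 1/2), ?_⟩
    rw [mem_interior]
    refine ⟨L ⁻¹' O, preimage_mono hOD, hO.preimage L.continuous, ?_⟩
    rw [mem_preimage, ContinuousLinearEquiv.apply_symm_apply]
    exact hy
  have hD'bdd : Bornology.IsBounded D' := by
    have h2 : Bornology.IsBounded D := isBounded_closedBall.subset inter_subset_right
    have h3 : D' = L.symm '' D := by
      ext x
      constructor
      · intro hx; exact ⟨L x, hx, by simp⟩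
      · rintro ⟨y, hy, rfl⟩
        show L (L.symm y) ∈ D
        rwa [ContinuousLinearEquiv.apply_symm_apply]
    rw [h3]
    exact L.symm.lipschitz.isBounded_image h2
  obtain ⟨g, -, -, hg⟩ := exists_homeomorph_image_interior_closure_frontier_eq_unitBall
    hD'conv hD'int hD'bdd
  let H : (ι → ℝ) ≃ₜ EuclideanSpace ℝ ι := (Ψ.trans L.symm.toHomeomorph).trans g
  have hH : H '' frontier (K f true ∩ closedBall (0 : ι → ℝ) 1) = sphere 0 1 := by
    rw [hU, ← Homeomorph.preimage_frontier, ← hg]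
    have h3 : frontier D' = L.toHomeomorph ⁻¹' frontier D := by
      rw [Homeomorph.preimage_frontier]; rfl
    rw [h3]
    ext y
    constructor
    · rintro ⟨x, hx, rfl⟩
      refine ⟨L.symm (Ψ x), ?_, rfl⟩
      show L (L.symm (Ψ x)) ∈ frontier D
      rwa [ContinuousLinearEquiv.apply_symm_apply]
    · rintro ⟨z, hz, rfl⟩
      refine ⟨Ψ.symm (L z), ?_, ?_⟩
      · show Ψ (Ψ.symm (L z)) ∈ frontier D
        rw [Homeomorph.apply_symm_apply]; exact hz
      · show g (L.symm (Ψ (Ψ.symm (L z)))) = g z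
        rw [Homeomorph.apply_symm_apply, ContinuousLinearEquiv.symm_apply_apply]
  exact ⟨(H.image _).trans (Homeomorph.setCongr hH)⟩

end Pool.Agent.Helper514.Sphere
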