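import Mathlib
import Pool.Agent.Helper514.Sphere
import Pool.Agent.Helper514.NonManifold
import Pool.Agent.Helper514.Data

set_option autoImplicit false

open Metric Set
open Pool.Agent.Helper514.Pattern Pool.Agent.Helper514.Rigid Pool.Agent.Helper514.NonManifold

namespace Pool.Agent.Helper514.Main

section general

variable {ι : Type*} [Fintype ι] [DecidableEq ι]

/-- The configuration around the origin given by a pattern. -/
def anim (g : (ι → Bool) → Bool) : Finset (ι → ℤ) :=
  (Finset.univ.filter (fun s => g s = true)).image idx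

theorem mem_anim (g : (ι → Bool) → Bool) (s : ι → Bool) : idx s ∈ anim g ↔ g s = true := by
  simp only [anim, Finset.mem_image, Finset.mem_filter, Finset.mem_univ, true_and]
  constructor
  · rintro ⟨t, ht, h⟩
    rw [← idx_injective h]; exact ht
  · intro h; exact ⟨s, h, rfl⟩

theorem U_anim (g : (ι → Bool) → Bool) : U (anim g) = K g true ∩ closedBall (0 : ι → ℝ) 1 := by
  ext x
  simp only [U, mem_iUnion, mem_inter_iff, mem_closedBall, dist_zero_right]
  rw [pi_norm_le_iff_of_nonneg zero_le_one]
  simp only [Real.norm_eq_abs]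
  constructor
  · rintro ⟨c, hc, hx⟩
    simp only [anim, Finset.mem_image, Finset.mem_filter, Finset.mem_univ, true_and] at hc
    obtain ⟨s, hs, rfl⟩ := hc
    obtain ⟨h1, h2⟩ := (mem_cube_idx s x).1 hx
    exact ⟨⟨s, hs, h1⟩, h2⟩
  · rintro ⟨⟨s, hs, h1⟩, h2⟩
    exact ⟨idx s, (mem_anim g s).2 hs, (mem_cube_idx s x).2 ⟨h1, h2⟩⟩

omit [Fintype ι] in
theorem flp_ne (q : ι → Bool) (B : Finset ι) (hB : B ≠ ∅) : flp q B ≠ q := by
  obtain ⟨i, hi⟩ := Finset.nonempty_iff_ne_empty.2 hB
  intro h
  have := congrFun h i
  simp [flp, hi] at this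

theorem bad_of_step (g : (ι → Bool) → Bool) (q : ι → Bool) (hb : Blocked g q)
    (X Y : Finset (ι → ℤ)) (hX : ∀ s, idx s ∈ X ↔ g s = true)
    (hXY : symmDiff X Y = {idx q}) : ∃ A, Bad Y q A := by
  obtain ⟨A, hA2, hA⟩ := hb
  have hmem : ∀ c, c ∈ symmDiff X Y ↔ c = idx q := by
    intro c; rw [hXY, Finset.mem_singleton]
  have hq : idx q ∈ Y ↔ g q = false := by
    have h1 := (hmem (idx q)).2 rfl
    rw [Finset.mem_symmDiff, hX] at h1
    cases hg : g q
    · rw [hg] at h1; simp at h1; simp [h1]
    · rw [hg] at h1; simp at h1; simp [h1]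
  have hs : ∀ s, s ≠ q → (idx s ∈ Y ↔ g s = true) := by
    intro s hs
    have h1 : ¬ (idx s ∈ symmDiff X Y) := by
      rw [hmem]; intro h; exact hs (idx_injective h)
    rw [Finset.mem_symmDiff, hX] at h1
    push Not at h1
    constructor
    · intro h
      exact h1.2 h
    · intro h; exact h1.1 h
  refine ⟨A, hA2, !(g q), fun B hB => ?_⟩
  by_cases hB0 : B = ∅
  · subst hB0
    rw [flp_empty]
    constructor
    · intro _; left; rfl
    · intro _
      cases hg : g q
      · simp [hq, hg]
      · simp [hq, hg]
  · have h1 := hs _ (flp_ne q B hB0)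
    have h2 := hA B hB
    constructor
    · intro h
      right
      rw [← h2]
      intro h3
      rw [h3] at h1
      cases hg : g q
      · rw [hg] at h h1; simp [h1] at h
      · rw [hg] at h h1; simp [h1] at h
    · rintro (h | h)
      · exact absurd h hB0
      · have h3 := h2.2 h
        cases hg : g q
        · have h4 : g (flp q B) = true := by
            cases h5 : g (flp q B)
            · rw [h5, hg] at h3; exact absurd rfl h3
            · rfl
          simp [h1, h4]
        · have h4 : g (flp q B) = false := by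
            cases h5 : g (flp q B)
            · rfl
            · rw [h5, hg] at h3; exact absurd rfl h3
          simp [h1, h4]

/-- If a standard pattern has all orthants blocked then there are two configurations bounded by
spheres which are not connected by moves. -/
theorem not_connected (g : (ι → Bool) → Bool) (hT : T g) (hR : ∀ q, Blocked g q) (i0 : ι)
    (P : Finset (ι → ℤ) → Prop)
    (hP : ∀ S, P S ↔ Nonempty (↥(frontier (U S)) ≃ₜ ↥(sphere (0 : EuclideanSpace ℝ ι) 1))) :
    ∃ A B, P A ∧ P B ∧ ¬ Relation.ReflTransGen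
      (fun X Y : Finset (ι → ℤ) => P X ∧ P Y ∧ (symmDiff X Y).card = 1) A B := by
  refine ⟨anim g, anim (fun s => s i0), ?_, ?_, ?_⟩
  · rw [hP, U_anim]; exact Sphere.frontier_homeo g hT
  · rw [hP, U_anim]; exact Sphere.frontier_homeo _ (T_half i0)
  · intro hpath
    have hinv : ∀ X, Relation.ReflTransGen
        (fun X Y : Finset (ι → ℤ) => P X ∧ P Y ∧ (symmDiff X Y).card = 1) (anim g) X →
        ∀ s, idx s ∈ X ↔ g s = true := by
      intro X hX
      induction hX with
      | refl => exact mem_anim g
      | tail _ hstep ih =>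
        rename_i X Y _
        obtain ⟨-, hPY, hcard⟩ := hstep
        obtain ⟨c, hc⟩ := Finset.card_eq_one.1 hcard
        by_cases hcs : ∃ q, c = idx q
        · obtain ⟨q, rfl⟩ := hcs
          obtain ⟨A, hA⟩ := bad_of_step g q (hR q) X Y ih hc
          exact absurd ((hP Y).1 hPY) (not_sphere Y q A hA)
        · push Not at hcs
          intro s
          rw [← ih s]
          have h1 : ¬ (idx s ∈ symmDiff X Y) := by
            rw [hc, Finset.mem_singleton]
            exact fun h => hcs s h.symm
          rw [Finset.mem_symmDiff] at h1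
          push Not at h1
          exact ⟨h1.2, h1.1⟩
    have h2 := hinv _ hpath
    have h3 : ∀ s : ι → Bool, (s i0 = true ↔ g s = true) := by
      intro s
      rw [← h2 s, mem_anim]
    have h4 : g = fun s => s i0 := by
      funext s
      have := h3 s
      cases h5 : s i0 <;> cases h6 : g s <;> simp_all
    obtain ⟨A, hA2, hA⟩ := hR (fun _ => false)
    rw [h4] at hA
    by_cases hi : i0 ∈ A
    · have h5 := hA {i0} (by simpa using hi)
      have h6 : ({i0} : Finset ι) = A := h5.1 (by simp [flp])
      rw [← h6] at hA2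
      simp at hA2
    · have h5 := (hA A (Finset.Subset.refl _)).2 rfl
      simp [flp, hi] at h5

end general

/-- The rigid pattern on 144 coordinates. -/
theorem exists_rigid : ∃ g : (Fin (12 * 12) → Bool) → Bool, T g ∧ ∀ q, Blocked g q := by
  let z : Fin 12 → Bool := Data.dec 89
  let g0 : (Fin 12 × Fin 12 → Bool) → Bool := comp Data.base z
  have hT0 : T g0 := by
    apply T_compose Data.base (fun j s => xor (Data.base s) (z j)) Data.T_base
    intro j
    cases hz : z j
    · simpa using Data.T_base
    · simpa using T_not _ Data.T_base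
  have hR0 : ∀ q, Blocked g0 q :=
    comp_rigid Data.base Data.base_blocked z Data.base_true (Data.dec 0) Data.base_false
  refine ⟨fun s => g0 (fun i => s (finProdFinEquiv i)), T_congr_equiv finProdFinEquiv g0 hT0, ?_⟩
  intro q
  exact blocked_congr_equiv finProdFinEquiv g0 q (hR0 _)

end Pool.Agent.Helper514.Main
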